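import Mathlib

set_option autoImplicit false

namespace Pool.Agent.H.MP_1f2de8_an

open Complex Finset PowerSeries

/-- truncated square norm -/
noncomputable def n2 (k : ℕ) (A : ℂ⟦X⟧) : ℝ := ∑ j ∈ range (k + 1), ‖coeff j A‖ ^ 2

/-- truncated composition -/
noncomputable def T (ω : ℂ⟦X⟧) (N : ℕ) (v : ℕ → ℝ) : ℂ⟦X⟧ := ∑ j ∈ range N, C (v j : ℂ) * ω ^ j

/-- the `l^1` Rogosinski property -/
def P (ω : ℂ⟦X⟧) (m : ℕ) (v : ℕ → ℝ) : Prop :=
  ∑ j ∈ range (m + 1), ‖coeff j (T ω (m + 1) v)‖ ≤ ∑ j ∈ range (m + 1), v j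

variable {ω : ℂ⟦X⟧} {m : ℕ}

theorem shift (h0 : constantCoeff ω = 0) (hT : ∀ k g, n2 k (ω * g) ≤ n2 k g) (k : ℕ) (g : ℂ⟦X⟧) :
    n2 (k + 1) (ω * g) ≤ n2 k g := by
  obtain ⟨g', hg⟩ : ∃ g' : ℂ⟦X⟧, ∀ j, coeff j g' = if j ≤ k then coeff j g else 0 :=
    ⟨PowerSeries.mk _, fun j => coeff_mk _ _⟩
  have d : X ^ (k + 1) ∣ g - g' := X_pow_dvd_iff.2 fun j hj => by simp [hg, Nat.lt_succ_iff.1 hj]
  have d2 := mul_dvd_mul (X_dvd_iff.2 h0) d
  rw [← pow_succ', X_pow_dvd_iff] at d2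
  refine le_trans (le_of_eq (sum_congr rfl fun j hj => ?_)) ((hT (k + 1) g').trans_eq ?_)
  · have := d2 j (mem_range.1 hj)
    rw [mul_sub, map_sub, sub_eq_zero] at this
    rw [this]
  · rw [n2, sum_range_succ, hg, if_neg (by omega), norm_zero, zero_pow two_ne_zero, add_zero]
    exact sum_congr rfl fun j hj => by rw [hg, if_pos (Nat.lt_succ_iff.1 (mem_range.1 hj))]

theorem rog (h0 : constantCoeff ω = 0) (hT : ∀ k g, n2 k (ω * g) ≤ n2 k g) (k : ℕ) :
    ∀ N v, n2 k (T ω N v) ≤ ∑ j ∈ range (k + 1), v j ^ 2 := by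
  have e : ∀ N v, T ω (N + 1) v = ω * T ω N (fun j => v (j + 1)) + C (v 0 : ℂ) := fun N v => by
    simp [T, sum_range_succ', mul_sum, pow_succ', mul_left_comm]
  induction k with
  | zero => rintro (_ | N) v <;> simp [n2, e, h0]; simp [T, sq_nonneg]
  | succ k ih =>
    rintro (_ | N) v
    · simpa [n2, T] using sum_nonneg fun _ _ => sq_nonneg _
    · have := (shift h0 hT k _).trans (ih N fun j => v (j + 1))
      rw [n2, sum_range_succ'] at this
      rw [e, n2, sum_range_succ', sum_range_succ' fun j => v j ^ 2]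
      simpa [h0, coeff_C] using this

theorem T_lin {ι : Type} (s : Finset ι) (c : ι → ℝ) (v : ι → ℕ → ℝ) (N : ℕ) :
    T ω N (fun j => ∑ i ∈ s, c i * v i j) = ∑ i ∈ s, C (c i : ℂ) * T ω N (v i) := by
  simp only [T, ofReal_sum, map_sum, sum_mul, mul_sum, ofReal_mul, map_mul, mul_assoc]
  exact sum_comm

theorem P_sum {ι : Type} (s : Finset ι) {c : ι → ℝ} {v : ι → ℕ → ℝ}
    (h : ∀ i ∈ s, c i = 0 ∨ 0 ≤ c i ∧ P ω m (v i)) {u : ℕ → ℝ}
    (e : ∀ j ≤ m, u j = ∑ i ∈ s, c i * v i j) : P ω m u := by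
  have e' := fun j (hj : j ∈ range (m + 1)) => e j (Nat.lt_succ_iff.1 (mem_range.1 hj))
  have e2 : T ω (m + 1) u = T ω (m + 1) fun j => ∑ i ∈ s, c i * v i j :=
    sum_congr rfl fun j hj => by rw [e' j hj]
  rw [P, sum_congr rfl e', e2, T_lin, sum_comm]
  simp only [map_sum, coeff_C_mul]
  refine (sum_le_sum fun j _ => norm_sum_le _ _).trans (sum_comm.trans_le (sum_le_sum fun i hi => ?_))
  rcases h i hi with h | ⟨h0, h⟩
  · simp [h]
  · simpa [← mul_sum, abs_of_nonneg h0] using mul_le_mul_of_nonneg_left h h0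

theorem low (h0 : constantCoeff ω = 0) {i j : ℕ} (h : j < i) : coeff j (ω ^ i) = 0 :=
  X_pow_dvd_iff.1 (pow_dvd_pow_of_dvd (X_dvd_iff.2 h0) i) j h

theorem P_e (h0 : constantCoeff ω = 0) (hT : ∀ k g, n2 k (ω * g) ≤ n2 k g) (i : ℕ) :
    P ω m fun j => if i ≤ j then 1 else 0 := by
  have := rog h0 hT m (m + 1) fun j => if i ≤ j then 1 else 0
  have h : ∀ j ∈ range (m + 1), 2 * ‖coeff j (T ω (m + 1) fun j => if i ≤ j then 1 else 0)‖ ≤
      ‖coeff j (T ω (m + 1) fun j => if i ≤ j then 1 else 0)‖ ^ 2 + if i ≤ j then 1 else 0 := by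
    intro j _
    split_ifs with h
    · nlinarith [sq_nonneg (‖coeff j (T ω (m + 1) fun j => if i ≤ j then 1 else 0)‖ - 1)]
    · rw [T, map_sum, sum_eq_zero fun l _ => by
        split_ifs with hl
        · simp [low h0 (show j < l by omega)]
        · simp]
      simp
  have h2 := sum_le_sum h
  simp only [n2, ite_pow, one_pow, ne_eq, OfNat.ofNat_ne_zero, not_false_eq_true, zero_pow] at this
  rw [← mul_sum, sum_add_distrib] at h2
  rw [P]; linarith

theorem idn (x y : ℂ) (a b c s t : ℝ) (h1 : a + 4 * c = 1) (h2 : b + c * t ^ 2 = s ^ 2)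
    (h3 : 2 * c * t = s) : ‖x + s * y‖ ^ 2 = a * ‖x‖ ^ 2 + b * ‖y‖ ^ 2 + c * ‖2 * x + t * y‖ ^ 2 := by
  simp [← normSq_eq_norm_sq, normSq_apply]
  linear_combination -(x.re ^ 2 + x.im ^ 2) * h1 - (y.re ^ 2 + y.im ^ 2) * h2 -
    2 * (x.re * y.re + x.im * y.im) * h3

theorem P_w (h0 : constantCoeff ω = 0) (hT : ∀ k g, n2 k (ω * g) ≤ n2 k g) {h : ℂ⟦X⟧}
    (eh : h * (1 - ω) = ω) (hb : ∀ j, ‖coeff j h‖ ≤ 1)
    (hc : ∀ j, 1 - ‖coeff 1 h‖ ^ 2 ≤ 2 * (1 - ‖coeff j h‖ ^ 2) + 2 * (1 - ‖coeff (j + 1) h‖ ^ 2))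
    {i : ℕ} (hi : i + 2 ≤ m) {t : ℝ} (ht : t = 1 ∨ t = -1) :
    P ω m fun j => (if 1 ≤ j then 1 else 0) + t / 4 * if j = i + 2 then 1 else 0 := by
  have u : IsUnit (1 - ω) := isUnit_iff_constantCoeff.2 (by simp [h0])
  have c0 : coeff 0 h = 0 := by simpa [h0] using congrArg constantCoeff eh
  have co : ∀ a b : ℝ, ∀ j ≤ m, coeff j (T ω (m + 1) fun j => a * (if 1 ≤ j then 1 else 0) +
      b * if j = i + 2 then 1 else 0) = a * coeff j h + b * coeff j (ω ^ (i + 2)) := by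
    intro a b j hj
    have d : X ^ (m + 1) ∣ h - ∑ l ∈ range m, ω ^ (l + 1) := by
      refine u.dvd_mul_left.1 ((pow_dvd_pow_of_dvd (X_dvd_iff.2 h0) _).trans (dvd_of_eq ?_))
      simp only [pow_succ, ← sum_mul]
      linear_combination ω * mul_neg_geom_sum ω m - eh
    have := X_pow_dvd_iff.1 d j (by omega)
    rw [map_sub, sub_eq_zero] at this
    simp only [T, ofReal_add, map_add, add_mul, sum_add_distrib]
    congr 1
    · simp [sum_range_succ', this, mul_sum]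
    · simp [apply_ite, Nat.lt_succ_of_le hi]
  have sq : ∀ a b : ℝ, ∀ k, i + 2 ≤ k → k ≤ m → ∑ j ∈ range (k + 1),
      ‖a * coeff j h + b * coeff j (ω ^ (i + 2))‖ ^ 2 ≤ (k - 1) * a ^ 2 + (a + b) ^ 2 := by
    intro a b k h1 h2
    refine le_trans (le_of_eq (sum_congr rfl fun j hj => by
      rw [co a b j (by have := mem_range.1 hj; omega)])) ((rog h0 hT k _ _).trans_eq ?_)
    rw [sum_congr rfl (g := fun j => a ^ 2 * (if 1 ≤ j then 1 else 0) + (2 * a * b + b ^ 2) *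
      if j = i + 2 then 1 else 0) fun j _ => by split_ifs <;> first | omega | ring, sum_add_distrib,
      sum_range_succ']
    simp [Nat.lt_succ_of_le h1]; ring
  obtain ⟨d, hd⟩ : ∃ d : ℕ → ℝ, d = fun j => 1 - ‖coeff j h‖ ^ 2 := ⟨_, rfl⟩
  have d0 : ∀ j, 0 ≤ d j := fun j => hd ▸ sub_nonneg.2 (pow_le_one₀ (norm_nonneg _) (hb j))
  have nD : ∀ k, ∑ j ∈ range (k + 1), ‖coeff j h‖ ^ 2 = k - ∑ j ∈ range k, d (j + 1) := fun k => by
    simp [sum_range_succ', c0, hd]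
  have D4 : ∀ k : ℕ, (k + 3) * d 1 ≤ 4 * ∑ j ∈ range (k + 1), d (j + 1) := fun k => by
    induction k using Nat.twoStepInduction with
    | zero => simp; linarith [d0 1]
    | one => simp [sum_range_succ]; linarith [d0 2]
    | more k ih _ =>
      have : d 1 ≤ 2 * d (k + 1 + 1) + 2 * d (k + 2 + 1) := hd ▸ hc (k + 2)
      rw [sum_range_succ, sum_range_succ]; push_cast; linarith
  have w : coeff (i + 2) (ω ^ (i + 2)) = coeff 1 h ^ (i + 2) := by
    obtain ⟨b, hb⟩ := X_dvd_iff.2 h0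
    have := congrArg (coeff 1) eh
    rw [mul_sub, mul_one, map_sub, coeff_one_mul] at this
    simp only [c0, h0, ← coeff_zero_eq_constantCoeff_apply h] at this
    rw [hb, mul_pow, coeff_X_pow_mul', if_pos le_rfl, Nat.sub_self]
    simp_all
  have Y : 1 - ‖coeff (i + 2) (ω ^ (i + 2))‖ ^ 2 ≤ 4 * ∑ j ∈ range (i + 1), d (j + 1) := by
    have := one_add_mul_sub_le_pow (a := ‖coeff 1 h‖ ^ 2) (by linarith [sq_nonneg ‖coeff 1 h‖]) (i + 2)
    have e : d 1 = 1 - ‖coeff 1 h‖ ^ 2 := by rw [hd]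
    rw [w, norm_pow, ← pow_mul, mul_comm, pow_mul]
    push_cast at this
    nlinarith [D4 i, d0 1]
  have mi : i + 2 ∈ range (m + 1) := mem_range.2 (by omega)
  have t2 : t ^ 2 = 1 := by rcases ht with rfl | rfl <;> norm_num
  have A1 := sq 2 t m hi le_rfl
  have A2 := sq 2 (-1) (i + 2) le_rfl hi
  have A3 := single_le_sum (f := fun j => ‖coeff j (ω ^ (i + 2))‖ ^ 2) (fun _ _ => sq_nonneg _) mi
  have A4 : ∑ j ∈ range (i + 2), d (j + 1) ≤ ∑ j ∈ range m, d (j + 1) :=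
    sum_le_sum_of_subset_of_nonneg (range_subset_range.2 hi) fun _ _ _ => d0 _
  have A5 := sum_congr (s₁ := range (m + 1)) rfl fun j _ => idn (coeff j h) (coeff j (ω ^ (i + 2)))
    (1 / 2) (-1 / 16) (1 / 8) (t / 4) t (by norm_num) (by nlinarith) (by ring)
  rw [sum_range_succ, sum_congr rfl (g := fun j => 4 * ‖coeff j h‖ ^ 2) fun j hj => by
    simp [low h0 (mem_range.1 hj), mul_pow]; norm_num, ← mul_sum, nD] at A2
  rw [sum_range_succ] at A4
  rw [sum_add_distrib, sum_add_distrib, ← mul_sum, ← mul_sum, ← mul_sum, nD] at A5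
  have A6 : ∀ j ∈ range (m + 1), 2 * ‖coeff j h + (t / 4 : ℝ) * coeff j (ω ^ (i + 2))‖ ≤
      ‖coeff j h + (t / 4 : ℝ) * coeff j (ω ^ (i + 2))‖ ^ 2 + (if 1 ≤ j then 1 else 0) +
      if j = i + 2 then (4 / 15 * (1 / 4 - t)) *
        ‖coeff j h + (t / 4 : ℝ) * coeff j (ω ^ (i + 2))‖ ^ 2 + t / 4 else 0 := fun j _ => by
    generalize hx : ‖coeff j h + (t / 4 : ℝ) * coeff j (ω ^ (i + 2))‖ = x
    split_ifs with h1 h2 h2
    · rcases ht with rfl | rfl <;> nlinarith [sq_nonneg (4 * x - 5), sq_nonneg (4 * x - 3)]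
    · nlinarith [sq_nonneg (x - 1)]
    · omega
    · obtain rfl : j = 0 := by omega
      simp [← hx, c0, h0]
  have A7 := sum_le_sum A6
  have e1 : ∑ j ∈ range (m + 1), (if 1 ≤ j then 1 else 0 : ℝ) = m := by
    rw [sum_range_succ']; simp
  rw [sum_add_distrib, sum_add_distrib, ← mul_sum, sum_ite_eq', if_pos mi, e1] at A7
  have c := co 1 (t / 4)
  simp only [one_mul, ofReal_one] at c
  rw [P, sum_congr rfl fun j hj => by rw [c j (Nat.lt_succ_iff.1 (mem_range.1 hj))],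
    sum_add_distrib, ← mul_sum, sum_ite_eq', if_pos mi, e1]
  have e2 : d (i + 1 + 1) = 1 - ‖coeff (i + 2) h‖ ^ 2 := by rw [hd]
  have := d0 (i + 1 + 1)
  push_cast at A1 A2
  rcases ht with rfl | rfl
  · have := idn (coeff (i + 2) h) (coeff (i + 2) (ω ^ (i + 2))) (3 / 2) (3 / 16) (-1 / 8) (1 / 4) (-1)
      (by norm_num) (by norm_num) (by norm_num)
    push_cast at *; linarith
  · have := idn (coeff (i + 2) h) (coeff (i + 2) (ω ^ (i + 2))) (1 / 2) (-1 / 16) (1 / 8) (-1 / 4) (-1)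
      (by norm_num) (by norm_num) (by norm_num)
    push_cast at *; linarith

theorem l1 (h0 : constantCoeff ω = 0) (hT : ∀ k g, n2 k (ω * g) ≤ n2 k g) {h : ℂ⟦X⟧}
    (eh : h * (1 - ω) = ω) (hb : ∀ j, ‖coeff j h‖ ≤ 1)
    (hc : ∀ j, 1 - ‖coeff 1 h‖ ^ 2 ≤ 2 * (1 - ‖coeff j h‖ ^ 2) + 2 * (1 - ‖coeff (j + 1) h‖ ^ 2))
    {μ χ : ℕ → ℝ} (hμ : ∀ i, 0 ≤ μ i) (h4 : 4 * ∑ i ∈ range (m + 1), |χ i| ≤ μ 0) (χ0 : χ 0 = 0)
    (χ1 : χ 1 = 0) : P ω m fun j => ∑ i ∈ range j, μ i + χ j := by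
  refine P_sum ((range (m + 1)).disjSum (range (m + 1)))
    (c := Sum.elim (fun i => μ i - if i = 0 then 4 * ∑ i ∈ range (m + 1), |χ i| else 0)
      fun i => 4 * |χ i|) (v := Sum.elim (fun i j => if i + 1 ≤ j then 1 else 0) fun i j =>
      (if 1 ≤ j then 1 else 0) + (if 0 ≤ χ i then 1 else -1) / 4 * if j = i then 1 else 0) ?_ ?_
  · rintro (i | _ | _ | i) hi
    · refine .inr ⟨?_, P_e h0 hT _⟩
      simp only [Sum.elim_inl]; split_ifs with e
      · rw [e]; linarith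
      · simpa using hμ i
    · simp [χ0]
    · simp [χ1]
    · exact .inr ⟨by simp, P_w h0 hT eh hb hc (by simp at hi; omega) (by split_ifs <;> simp)⟩
  · intro j hj
    simp only [sum_disjSum, Sum.elim_inl, Sum.elim_inr]
    rw [sum_congr (s₁ := range (m + 1)) rfl (g := fun i => (if i < j then μ i else 0) - if i = 0 then
      (4 * ∑ i ∈ range (m + 1), |χ i|) * if 1 ≤ j then 1 else 0 else 0) fun i _ => by
        split_ifs <;> first | omega | simp,
      sum_congr (s₁ := range (m + 1)) rfl (f := fun i => 4 * |χ i| * _) (g := fun i =>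
        (4 * |χ i| * if 1 ≤ j then 1 else 0) + if j = i then χ i else 0) fun i _ => by
        rcases le_or_gt 0 (χ i) with h | h
        · rw [if_pos h, abs_of_nonneg h]; split_ifs <;> ring
        · rw [if_neg h.not_ge, abs_of_neg h]; split_ifs <;> ring,
      sum_sub_distrib, sum_add_distrib, ← sum_filter, sum_ite_eq', sum_ite_eq, ← sum_mul, ← mul_sum,
      show (range (m + 1)).filter (· < j) = range j by ext; simp; omega]
    simp [Nat.lt_succ_of_le hj]; ring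

end Pool.Agent.H.MP_1f2de8_an
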