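import Mathlib

set_option autoImplicit false

namespace Pool.Agent.H.MP_1f2de8_an

open Finset PowerSeries

/-- potential function -/
noncomputable def pot (β k : ℝ) : ℝ :=
  (β - 2) / (β + 2) * ((β ^ 2 + 2 * β - 2) / (2 * (β + 1)) + k) + k ^ 2 / (β - 1)

theorem ineq {β k : ℝ} (hβ : 2 ≤ β) (hk : 3 ≤ k) :
    |k * ((k - β) / (β + k)) + (β - 2) / (β + 2) * (k - 1)| + (β ^ 2 + 2 * β - 2) / (2 * (β + 1)) *
      |(k - β) / (β + k) + (β - 2) / (β + 2)| + |(k - β) / (β + k)| * pot β k ≤ pot β (k - 1) := by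
  have h1 : 0 ≤ (k - β) / (β + k) + (β - 2) / (β + 2) := by
    rw [div_add_div _ _ (by positivity) (by positivity)]
    exact div_nonneg (by nlinarith) (by positivity)
  have h2 := abs_add_le ((k - β) / (β + k)) ((k - 1) * ((k - β) / (β + k) + (β - 2) / (β + 2)))
  rw [abs_of_nonneg (mul_nonneg (by linarith) h1), show (k - β) / (β + k) + (k - 1) * ((k - β) /
    (β + k) + (β - 2) / (β + 2)) = k * ((k - β) / (β + k)) + (β - 2) / (β + 2) * (k - 1) by ring] at h2
  rw [abs_of_nonneg h1]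
  refine (add_le_add_left (add_le_add_left h2 _) _).trans (sub_nonneg.1 ?_)
  obtain ⟨s, s0, rfl⟩ : ∃ s, 0 ≤ s ∧ k = 3 + s := ⟨k - 3, by linarith, by ring⟩
  rcases le_total (3 + s) β with h | h
  · obtain ⟨d, d0, rfl⟩ : ∃ d, 0 ≤ d ∧ β = 3 + s + d := ⟨β - (3 + s), by linarith, by ring⟩
    rw [abs_of_nonpos (div_nonpos_of_nonpos_of_nonneg (by linarith) (by positivity))]
    refine le_of_le_of_eq (b := (480 + 856 * s + 592 * s ^ 2 + 198 * s ^ 3 + 32 * s ^ 4 + 2 * s ^ 5 +
      d * (184 + 337 * s + 201 * s ^ 2 + 48 * s ^ 3 + 4 * s ^ 4) +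
      d ^ 2 * (33 + 48 * s + 18 * s ^ 2 + 2 * s ^ 3) + d ^ 3 * (5 + 2 * s)) /
      ((6 + 2 * s + d) * (2 + s + d) * (4 + s + d) * (5 + s + d))) (by positivity) ?_
    simp only [pot, show 3 + s + d + (3 + s) = 6 + 2 * s + d by ring, show 3 + s + d - 1 = 2 + s + d
      by ring, show 3 + s + d + 1 = 4 + s + d by ring, show 3 + s + d + 2 = 5 + s + d by ring]
    field_simp; ring
  · obtain ⟨b, b0, rfl⟩ : ∃ b, 0 ≤ b ∧ β = 2 + b := ⟨β - 2, by linarith, by ring⟩
    rw [abs_of_nonneg (div_nonneg (by linarith) (by positivity))]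
    refine le_of_le_of_eq (b := (84 + 48 * s + 12 * s ^ 2 + b * (185 + 77 * s + 16 * s ^ 2) +
      b ^ 2 * (136 + 27 * s + 4 * s ^ 2) + b ^ 3 * (60 + 5 * s) + b ^ 4 * (14 + s) + b ^ 5) /
      ((5 + b + s) * (1 + b) * (3 + b) * (4 + b))) (by positivity) ?_
    simp only [pot, show 2 + b + (3 + s) = 5 + b + s by ring, show 2 + b - 1 = 1 + b by ring,
      show 2 + b + 1 = 3 + b by ring, show 2 + b + 2 = 4 + b by ring]
    field_simp; ring

theorem n1_mul (A B : ℝ⟦X⟧) (m : ℕ) : ∑ j ∈ range (m + 1), |coeff j (A * B)| ≤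
    (∑ j ∈ range (m + 1), |coeff j A|) * ∑ j ∈ range (m + 1), |coeff j B| := by
  simp only [coeff_mul, Nat.sum_antidiagonal_eq_sum_range_succ_mk]
  refine (sum_le_sum fun j _ => abs_sum_le_sum_abs _ _).trans ?_
  simp only [abs_mul]
  rw [sum_range_diag_flip (m + 1) fun i j => |coeff i A| * |coeff j B|, sum_mul]
  refine sum_le_sum fun i _ => ?_
  rw [← mul_sum]
  exact mul_le_mul_of_nonneg_left (sum_le_sum_of_subset_of_nonneg
    (range_subset_range.2 (by omega)) fun _ _ _ => abs_nonneg _) (abs_nonneg _)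

variable {β : ℝ} {c : ℕ → ℝ} {Φ : ℝ⟦X⟧}

theorem wien (hβ : 2 ≤ β) (c0 : c 0 = 1) (hc : ∀ k : ℕ, c (k + 1) = (k + 1 - β) / (β + (k + 1)) * c k)
    {Y : ℝ⟦X⟧} (hY : Y * PowerSeries.mk c = PowerSeries.mk fun k => k * c k) (m : ℕ) :
    ∑ j ∈ range (m + 3), |coeff j Y| ≤ (β ^ 2 + 2 * β - 2) / (2 * (β + 1)) := by
  obtain ⟨ρ, hρ⟩ : ∃ ρ, ρ = (β - 2) / (β + 2) := ⟨_, rfl⟩
  obtain ⟨L, hL⟩ : ∃ L, L = (β ^ 2 + 2 * β - 2) / (2 * (β + 1)) := ⟨_, rfl⟩
  obtain ⟨N, hN⟩ : ∃ N : ℝ⟦X⟧, N = (PowerSeries.mk fun k => k * c k) * (1 + C ρ * X) := ⟨_, rfl⟩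
  obtain ⟨E, hE⟩ : ∃ E : ℝ⟦X⟧, E = PowerSeries.mk c * (1 + C ρ * X) - 1 := ⟨_, rfl⟩
  have N1 : ∀ k, coeff (k + 1) N = (k + 1) * c (k + 1) + ρ * k * c k := fun k => by
    simp [hN, mul_add, ← mul_assoc, coeff_succ_mul_X]; ring
  have E1 : ∀ k, coeff (k + 1) E = c (k + 1) + ρ * c k := fun k => by
    simp [hE, mul_add, ← mul_assoc, coeff_succ_mul_X, coeff_one]; ring
  have p0 : ∀ k : ℝ, 0 ≤ k → 0 ≤ pot β k := fun k hk => by
    have : 0 ≤ β - 2 := by linarith
    have : 0 ≤ β - 1 := by linarith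
    have : 0 ≤ β ^ 2 + 2 * β - 2 := by nlinarith
    rw [pot]; positivity
  have L0 : 0 < L := hL ▸ div_pos (by nlinarith) (by positivity)
  have key : ∀ m : ℕ, ∑ j ∈ range (m + 3), |coeff j N| + L * ∑ j ∈ range (m + 3), |coeff j E| +
      |c (m + 2)| * pot β (m + 2) < L := fun m => by
    induction m with
    | zero =>
      obtain ⟨b, b0, rfl⟩ : ∃ b, 0 ≤ b ∧ β = 2 + b := ⟨β - 2, by linarith, by ring⟩
      have e1 : c 1 = -((1 + b) / (3 + b)) := by rw [hc, c0]; field_simp; ring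
      have e2 : c 2 = (1 + b) / (3 + b) * (b / (4 + b)) := by rw [hc, e1]; field_simp; ring
      have e3 : ρ = b / (4 + b) := by rw [hρ]; congr 1 <;> ring
      have e4 : c 1 + ρ = -(2 * (2 + b) / ((3 + b) * (4 + b))) := by rw [e1, e3]; field_simp; ring
      have e5 : 2 * c 2 + ρ * c 1 = c 2 := by rw [e1, e2, e3]; ring
      have e6 : c 2 + ρ * c 1 = 0 := by rw [e1, e2, e3]; ring
      have n0 : constantCoeff N = 0 := by simp [hN]
      have n1 : constantCoeff E = 0 := by simp [hE, c0]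
      simp [sum_range_succ, N1, E1, n0, n1, c0, one_add_one_eq_two, e4, e5, e6]
      rw [e1, e2, abs_neg, abs_of_nonneg (by positivity), abs_of_nonneg (by positivity),
        abs_of_nonneg (by positivity), ← sub_pos, hL]
      refine lt_of_lt_of_eq (b := (96 + 64 * b + 40 * b ^ 2 + 12 * b ^ 3) /
        (2 * (3 + b) ^ 2 * (4 + b) ^ 2)) (by positivity) ?_
      simp only [pot, show 2 + b - 1 = 1 + b by ring,
        show 2 + b + 1 = 3 + b by ring, show 2 + b + 2 = 4 + b by ring]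
      field_simp; ring
    | succ m ih =>
      have := mul_le_mul_of_nonneg_left (ineq hβ (k := m + 2 + 1) (by linarith [m.cast_nonneg (α := ℝ)]))
        (abs_nonneg (c (m + 2)))
      rw [sum_range_succ _ (m + 3), sum_range_succ _ (m + 3), N1, E1, hc (m + 2)]
      rw [← hρ, ← hL, mul_add, mul_add, ← abs_mul, mul_left_comm, ← abs_mul, ← mul_assoc, ← abs_mul,
        add_sub_cancel_right] at this
      push_cast
      refine lt_of_le_of_lt ?_ ih
      rw [show (m : ℝ) + 1 + 2 = m + 2 + 1 by ring]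
      generalize ((m : ℝ) + 2 + 1 - β) / (β + (m + 2 + 1)) = r at this ⊢
      rw [show ((m : ℝ) + 2 + 1) * (r * c (m + 2)) + ρ * (m + 2) * c (m + 2) =
        c (m + 2) * ((m + 2 + 1) * r + ρ * (m + 2)) by ring,
        show r * c (m + 2) + ρ * c (m + 2) = c (m + 2) * (r + ρ) by ring, mul_comm r]
      linarith
  have e : Y = N - Y * E := by rw [hN, hE, ← hY]; ring
  have h1 : ∑ j ∈ range (m + 3), |coeff j Y| ≤ ∑ j ∈ range (m + 3), |coeff j N| +
      ∑ j ∈ range (m + 3), |coeff j (Y * E)| := by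
    rw [← sum_add_distrib]
    exact sum_le_sum fun j _ => by nth_rw 1 [e]; exact abs_sub _ _
  have h2 := n1_mul Y E (m + 2)
  have h3 := key m
  have h4 := mul_nonneg (abs_nonneg (c (m + 2))) (p0 (m + 2) (by positivity))
  have h5 : 0 ≤ ∑ j ∈ range (m + 3), |coeff j N| := sum_nonneg fun _ _ => abs_nonneg _
  rw [← hL]
  by_contra hn
  have : ∑ j ∈ range (m + 3), |coeff j E| < 1 := by nlinarith
  nlinarith

theorem dec (hβ : 1 < β) (c0 : c 0 = 1) (hc : ∀ k : ℕ, c (k + 1) = (k + 1 - β) / (β + (k + 1)) * c k)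
    (hΦ : Φ * ((1 - X) * PowerSeries.mk c) = 1) : ∃ μ χ : ℕ → ℝ, (∀ i, 0 ≤ μ i) ∧
      (∀ m, 4 * ∑ i ∈ range (m + 1), |χ i| ≤ μ 0) ∧ χ 0 = 0 ∧ χ 1 = 0 ∧ ∀ j,
      coeff (j + 1) Φ = ∑ i ∈ range (j + 1), μ i + χ (j + 1) ∧ 1 ≤ coeff (j + 1) Φ := by
  have Φ0 : constantCoeff Φ = 1 := by simpa [c0] using congrArg constantCoeff hΦ
  rcases le_total β 2 with h | h
  · have cn : ∀ k, c (k + 1) ≤ 0 := fun k => by
      induction k with
      | zero => rw [hc, c0, mul_one]; exact div_nonpos_of_nonpos_of_nonneg (by simp [hβ.le]) (by positivity)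
      | succ k ih =>
        rw [hc]
        exact mul_nonpos_of_nonneg_of_nonpos (div_nonneg (by
          push_cast; linarith [k.cast_nonneg (α := ℝ)]) (by positivity)) ih
    have V : ∀ k, 0 ≤ coeff k (Φ * (1 - X)) := fun k => by
      induction k using Nat.strong_induction_on with
      | _ k ih =>
        rcases k with _ | k
        · simp [Φ0]
        have := congrArg (coeff (k + 1)) hΦ
        rw [← mul_assoc, coeff_mul, Nat.sum_antidiagonal_succ', coeff_one, if_neg k.succ_ne_zero] at this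
        have h2 : ∑ p ∈ antidiagonal k, coeff p.1 (Φ * (1 - X)) * coeff (p.2 + 1) (PowerSeries.mk c) ≤ 0 :=
          sum_nonpos fun p hp => mul_nonpos_of_nonneg_of_nonpos (ih _ (by
            have := mem_antidiagonal.1 hp; omega)) (by simpa using cn _)
        simp only [coeff_mk, c0, mul_one] at this h2
        linarith
    have V1 : ∀ k, coeff (k + 1) (Φ * (1 - X)) = coeff (k + 1) Φ - coeff k Φ := fun k => by
      simp [mul_sub, coeff_succ_mul_X]
    have e : ∀ j, coeff (j + 1) Φ = ∑ i ∈ range (j + 1), (coeff (i + 1) (Φ * (1 - X)) +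
        if i = 0 then 1 else 0) := fun j => by
      rw [sum_add_distrib, sum_congr rfl fun i _ => V1 i, sum_range_sub fun i => coeff i Φ]
      simp [Φ0]
    have mu : ∀ i, 0 ≤ coeff (i + 1) (Φ * (1 - X)) + if i = 0 then (1 : ℝ) else 0 := fun i =>
      add_nonneg (V _) (by split_ifs <;> simp)
    refine ⟨_, 0, mu, fun m => by simpa using mu 0, rfl, rfl, fun j => ⟨by simpa using e j, ?_⟩⟩
    rw [e, sum_add_distrib]
    simpa using sum_nonneg fun i _ => V (i + 1)
  · have b0 : 0 < β := by linarith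
    obtain ⟨K, hK⟩ : ∃ K : ℝ⟦X⟧, K = PowerSeries.mk fun k => k * c k := ⟨_, rfl⟩
    have ode : (1 - X) * K + (C β + C (β - 1) * X) * PowerSeries.mk c = C β := by
      ext k
      rcases k with _ | k
      · simp [hK, c0]
      · have : β + (k + 1) ≠ 0 := by positivity
        simp [hK, sub_mul, add_mul, mul_assoc, coeff_succ_X_mul, hc k]
        field_simp; ring
    obtain ⟨Y, hY⟩ : ∃ Y : ℝ⟦X⟧, Y = Φ * K * (1 - X) := ⟨_, rfl⟩
    have YK : Y * PowerSeries.mk c = K := by rw [hY]; linear_combination K * hΦ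
    have ΦY : (1 - X) * (C β * Φ - Y) = C β + C (β - 1) * X := by
      rw [hY]; linear_combination (C β + C (β - 1) * X) * hΦ - (1 - X) * Φ * ode
    have Y0 : constantCoeff Y = 0 := by simp [hY, hK]
    have Y1 : coeff 1 Y = -((β - 1) / (β + 1)) := by
      have := congrArg (coeff 1) YK
      simp [coeff_one_mul, Y0, hK, c0, hc 0] at this
      rw [this]; ring
    have e : ∀ j, β * coeff (j + 1) Φ - coeff (j + 1) Y = 2 * β - 1 := fun j => by
      induction j with
      | zero =>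
        have := congrArg (coeff 1) ΦY
        simp [sub_mul, Y0, Φ0, coeff_C] at this
        simp; linarith
      | succ j ih =>
        have := congrArg (coeff (j + 2)) ΦY
        simp [sub_mul, coeff_succ_X_mul, coeff_X] at this
        linarith
    have e' : ∀ j, coeff (j + 1) Φ = (2 * β - 1 + coeff (j + 1) Y) / β := fun j => by
      rw [← e j]; field_simp; ring
    have w : ∀ m, 4 * ∑ i ∈ range (m + 1), |if i < 2 then 0 else coeff i Y / β| ≤ 2 * β / (β + 1) :=
      fun m => by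
      have := wien h c0 hc (hK ▸ YK) m
      rw [sum_range_succ', sum_range_succ'] at this
      have h2 : ∑ i ∈ range (m + 1), |if i < 2 then 0 else coeff i Y / β| ≤
          ∑ i ∈ range (m + 3), |if i < 2 then 0 else coeff i Y / β| :=
        sum_le_sum_of_subset_of_nonneg (range_subset_range.2 (by omega)) fun _ _ _ => abs_nonneg _
      rw [sum_range_succ' _ (m + 2), sum_range_succ' _ (m + 1)] at h2
      have h3 : 0 ≤ (β - 1) / (β + 1) := div_nonneg (by linarith) (by positivity)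
      simp [Y0, Y1, abs_of_nonneg h3, abs_div, abs_of_pos b0, ← sum_div] at this h2
      simp only [add_assoc] at this h2
      simp only [Nat.lt_succ_iff (m := _) (n := 1)]
      refine (mul_le_mul_of_nonneg_left h2 (by norm_num)).trans ?_
      rw [← mul_div_assoc, div_le_iff₀ b0]
      refine (mul_le_mul_of_nonneg_left (le_sub_iff_add_le.2 this) zero_le_four).trans (le_of_eq ?_)
      field_simp; ring
    have m1 : 0 ≤ (β - 1) / (β * (β + 1)) := div_nonneg (by linarith) (by positivity)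
    have m0 : 4 / 3 ≤ 2 * β / (β + 1) := by rw [le_div_iff₀ (by positivity)]; linarith
    have f : ∀ j, coeff (j + 1) Φ = ∑ i ∈ range (j + 1), (if i = 0 then 2 * β / (β + 1) else
        if i = 1 then (β - 1) / (β * (β + 1)) else 0) +
        if j + 1 < 2 then 0 else coeff (j + 1) Y / β := fun j => by
      rw [e']
      rcases j with _ | j
      · simp [Y1]; field_simp; ring
      · simp [sum_range_succ']; field_simp; ring
    refine ⟨_, fun i => if i < 2 then 0 else coeff i Y / β, fun i => ?_, by simpa using w,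
      by simp, by simp, fun j => ⟨f j, ?_⟩⟩
    · split_ifs <;> linarith
    · have h1 := w (j + 1)
      have h2 := single_le_sum (f := fun i => |if i < 2 then 0 else coeff i Y / β|)
        (fun _ _ => abs_nonneg _) (self_mem_range_succ (j + 1))
      have h3 := neg_abs_le (if j + 1 < 2 then 0 else coeff (j + 1) Y / β)
      have h4 := single_le_sum (f := fun i => if i = 0 then 2 * β / (β + 1) else
        if i = 1 then (β - 1) / (β * (β + 1)) else 0) (fun i _ => by split_ifs <;> linarith)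
        (mem_range.2 j.succ_pos)
      rw [f]
      simp only [if_true] at h4
      linarith

end Pool.Agent.H.MP_1f2de8_an
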