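import Mathlib
import Pool.Agent.H.MP_0e1b7e_an.C

set_option autoImplicit false

namespace Pool.Agent.H.MP_1f2de8_an

open Filter Topology Metric Set Complex
open scoped Real ComplexConjugate

theorem inv_an {α : ℂ → ℂ} {U : Set ℂ} (hU : IsOpen U) (hα : AnalyticOnNhd ℂ α U)
    (hi : InjOn α U) : (∀ z ∈ U, 𝓝 (α z) ≤ map α (𝓝 z)) ∧
      AnalyticOnNhd ℂ (Function.invFunOn α U) (α '' U) ∧ ∀ z ∈ U, deriv α z ≠ 0 := by
  have e0 : ∀ z ∈ U, Function.invFunOn α U (α z) = z := hi.leftInvOn_invFunOn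
  have nc : ∀ z ∈ U, ¬ ∀ᶠ y in 𝓝 z, α y = α z := fun z hz h => by
    obtain ⟨y, h1, h2⟩ := (((h.and (hU.eventually_mem hz)).filter_mono
      (nhdsWithin_le_nhds (s := {z}ᶜ))).and self_mem_nhdsWithin).exists
    exact h2 (hi h1.2 hz h1.1)
  have e1 : ∀ z ∈ U, 𝓝 (α z) ≤ map α (𝓝 z) := fun z hz =>
    (hα z hz).eventually_constant_or_nhds_le_map_nhds.resolve_left (nc z hz)
  have e2 : ∀ z ∈ U, Tendsto (Function.invFunOn α U) (𝓝 (α z)) (𝓝 z) :=
    fun z hz => (tendsto_map'_iff.mpr (tendsto_id.congr'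
      ((hU.eventually_mem hz).mono fun y hy => (e0 y hy).symm))).mono_left (e1 z hz)
  have e3 : ∀ z ∈ U, ∀ᶠ y in 𝓝 (α z), y ∈ α '' U := fun z hz =>
    e1 z hz (image_mem_map (hU.mem_nhds hz))
  have e4 : ∀ z ∈ U, ContinuousAt (Function.invFunOn α U) (α z) :=
    fun z hz => by rw [ContinuousAt, e0 z hz]; exact e2 z hz
  have e6 : AnalyticOnNhd ℂ (Function.invFunOn α U) (α '' U) := by
    rintro _ ⟨z, hz, rfl⟩
    refine Complex.analyticAt_of_differentiable_on_punctured_nhds_of_continuousAt ?_ (e4 z hz)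
    have e5 : ∀ᶠ y in 𝓝[≠] z, deriv α y ≠ 0 :=
      (hα z hz).deriv.eventually_eq_zero_or_eventually_ne_zero.resolve_left fun h => by
        obtain ⟨ρ, h0, h1⟩ := Metric.eventually_nhds_iff_ball.1 (h.and (hU.eventually_mem hz))
        exact nc z hz ((isOpen_ball.eventually_mem (mem_ball_self h0)).mono fun y hy =>
          isOpen_ball.is_const_of_deriv_eq_zero (convex_ball z ρ).isPreconnected
            (hα.differentiableOn.mono fun w hw => (h1 w hw).2) (fun w hw => (h1 w hw).1) hy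
            (mem_ball_self h0))
    filter_upwards [self_mem_nhdsWithin, mem_nhdsWithin_of_mem_nhds (e3 z hz),
      mem_nhdsWithin_of_mem_nhds ((e2 z hz).eventually (eventually_nhdsWithin_iff.mp e5))]
    rintro _ h1 ⟨y, hy, rfl⟩ h2
    rw [e0 y hy] at h2
    refine (HasDerivAt.of_local_left_inverse (f := α) (e4 y hy) ?_ (h2 fun e => h1 (congrArg α e))
      ((e3 y hy).mono fun w hw => Function.invFunOn_eq hw)).differentiableAt
    rw [e0 y hy]
    exact (hα y hy).differentiableAt.hasDerivAt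
  refine ⟨e1, e6, fun z hz => ?_⟩
  exact right_ne_zero_of_mul_eq_one
    (((e6 _ (mem_image_of_mem α hz)).differentiableAt.hasDerivAt.comp z
      (hα z hz).differentiableAt.hasDerivAt).unique
      ((hasDerivAt_id z).congr_of_eventuallyEq ((hU.eventually_mem hz).mono e0)))

theorem fps {d : ℕ → ℂ} {g : ℂ → ℂ} (hd : ∀ w, ‖w‖ < 1 → HasSum (fun n => d n * w ^ n) (g w)) :
    HasFPowerSeriesOnBall g (FormalMultilinearSeries.ofScalars ℂ d) 0 1 := by
  refine ⟨ENNReal.le_of_forall_nnreal_lt fun r hr => FormalMultilinearSeries.le_radius_of_summable_norm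
    _ ?_, one_pos, fun {y} hy => ?_⟩
  · have := (hd r (by simpa using hr)).summable.norm
    simpa [FormalMultilinearSeries.ofScalars_norm] using this
  · simpa [FormalMultilinearSeries.ofScalars_apply_eq, mul_comm] using hd y (by
      rwa [← ENNReal.coe_one, Metric.eball_coe, mem_ball_zero_iff] at hy)

theorem jack {ω : ℂ → ℂ} {R : ℝ} (hω : DifferentiableOn ℂ ω (ball 0 R)) (h0 : ω 0 = 0) {z : ℂ}
    (hz : ‖z‖ < R) (hm : ∀ y, ‖y‖ ≤ ‖z‖ → ‖ω y‖ ≤ ‖ω z‖) (hn : ω z ≠ 0) :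
    ∃ m : ℝ, 1 ≤ m ∧ z * deriv ω z = m * ω z := by
  have z0 : 0 < ‖z‖ := norm_pos_iff.2 fun e => hn (e ▸ h0)
  have s : ∀ τ : ℂ, τ.re ≤ 0 → ‖ω (z * exp τ) * exp (-τ)‖ ≤ ‖ω z‖ := fun τ hτ => by
    have e := Real.exp_pos τ.re
    rw [norm_mul, norm_exp, neg_re, Real.exp_neg, mul_inv_le_iff₀ e]
    rcases hτ.eq_or_lt with h | h
    · simpa [h] using hm _ (by simp [norm_exp, h])
    · have := dist_le_div_mul_dist_of_mapsTo_ball (hω.mono (ball_subset_ball hz.le))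
        (R₂ := ‖ω z‖) (z := z * exp τ) (fun y hy => by simpa [h0] using hm y (mem_ball_zero_iff.1 hy).le)
        (by simpa [norm_exp, z0] using h)
      simp only [h0, dist_zero_right, norm_mul, norm_exp] at this
      rwa [← mul_assoc, div_mul_cancel₀ _ z0.ne'] at this
  have d := (hω.differentiableAt (isOpen_ball.mem_nhds (mem_ball_zero_iff.2 hz))).hasDerivAt
  have key : ∀ v : ℂ, v.re ≤ 0 → ((z * deriv ω z - ω z) * v * conj (ω z)).re ≤ 0 := fun v hv => by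
    have d1 : HasDerivAt (fun τ : ℂ => ω (z * exp (τ * v)) * exp (-(τ * v)) * conj (ω z))
        ((z * deriv ω z - ω z) * v * conj (ω z)) ((0 : ℝ) : ℂ) := by
      have a := ((hasDerivAt_id ((0 : ℝ) : ℂ)).mul_const v)
      have b := HasDerivAt.comp_of_eq ((0 : ℝ) : ℂ) d (a.cexp.const_mul z) (by simp)
      refine ((b.mul a.neg.cexp).mul_const _).congr_deriv ?_
      simp; left; ring
    refine le_of_tendsto d1.real_of_complex.tendsto_slope_zero_right
      (eventually_nhdsWithin_of_forall fun t ht => ?_)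
    refine smul_nonpos_of_nonneg_of_nonpos (inv_pos.2 ht).le (sub_nonpos.2 ?_)
    refine (re_le_norm _).trans ?_
    have := s (t * v) (by simpa using mul_nonpos_of_nonneg_of_nonpos ht.le hv)
    simp only [zero_add, ofReal_zero, zero_mul, exp_zero, mul_one, neg_zero, mul_conj', norm_mul,
      norm_conj, ← ofReal_mul, ofReal_re, sq] at this ⊢
    exact mul_le_mul_of_nonneg_right this (norm_nonneg _)
  obtain ⟨c, hc⟩ : ∃ c, z * deriv ω z = c * ω z := ⟨_, (div_mul_cancel₀ _ hn).symm⟩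
  have e : ∀ v, ((z * deriv ω z - ω z) * v * conj (ω z)).re = ((c - 1) * v).re * normSq (ω z) :=
    fun v => by rw [← re_mul_ofReal, ← mul_conj, hc]; congr 1; ring
  have p := normSq_pos.2 hn
  simp only [e] at key
  have k1 := nonpos_of_mul_nonpos_left (key I (by simp)) p
  have k2 := nonpos_of_mul_nonpos_left (key (-I) (by simp)) p
  have k3 := nonpos_of_mul_nonpos_left (key (-1) (by simp)) p
  simp at k1 k2 k3
  exact ⟨c.re, k3, by rw [hc]; congr 1; exact Complex.ext rfl (by simp; linarith)⟩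

theorem sub {G g : ℂ → ℂ} (hG : DifferentiableOn ℂ G (ball 0 1)) (hi : InjOn G (ball 0 1))
    (hg : DifferentiableOn ℂ g (ball 0 1)) (h0 : g 0 = G 0)
    (h : ∀ z ζ : ℂ, ∀ m : ℝ, ‖z‖ < ‖ζ‖ → ‖ζ‖ < 1 → 1 ≤ m → g z = G ζ →
      z * deriv g z = m * (ζ * deriv G ζ) → False) :
    ∃ ω : ℂ → ℂ, DifferentiableOn ℂ ω (ball 0 1) ∧ ω 0 = 0 ∧
      ∀ z ∈ ball (0 : ℂ) 1, ‖ω z‖ ≤ ‖z‖ ∧ G (ω z) = g z := by
  obtain ⟨i1, i2, -⟩ := inv_an isOpen_ball (hG.analyticOnNhd isOpen_ball) hi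
  obtain ⟨ω, hω⟩ : ∃ ω, ω = fun z => Function.invFunOn G (ball 0 1) (g z) := ⟨_, rfl⟩
  have ω0 : ω 0 = 0 := by rw [hω]; simp only [h0]; exact hi.leftInvOn_invFunOn (mem_ball_self one_pos)
  have op : IsOpen (G '' ball 0 1) := isOpen_iff_mem_nhds.2 (by
    rintro _ ⟨z, hz, rfl⟩; exact i1 z hz (image_mem_map (isOpen_ball.mem_nhds hz)))
  have A : ∀ R ≤ 1, MapsTo g (ball 0 R) (G '' ball 0 1) → DifferentiableOn ℂ ω (ball 0 R) ∧
      ∀ z ∈ ball (0 : ℂ) R, ‖ω z‖ ≤ ‖z‖ ∧ G (ω z) = g z := fun R hR hm => by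
    have d : DifferentiableOn ℂ ω (ball 0 R) :=
      hω ▸ i2.differentiableOn.comp (hg.mono (ball_subset_ball hR)) hm
    have e : ∀ z ∈ ball (0 : ℂ) R, G (ω z) = g z := fun z hz => hω ▸ Function.invFunOn_eq (hm hz)
    have b : ∀ z ∈ ball (0 : ℂ) R, ω z ∈ ball (0 : ℂ) 1 := fun z hz =>
      hω ▸ Function.invFunOn_mem (hm hz)
    refine ⟨d, fun z hz => ⟨not_lt.1 fun hl => ?_, e z hz⟩⟩
    have sb : closedBall (0 : ℂ) ‖z‖ ⊆ ball 0 R := closedBall_subset_ball (mem_ball_zero_iff.1 hz)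
    obtain ⟨y, hy, hm⟩ := (isCompact_closedBall (0 : ℂ) ‖z‖).exists_isMaxOn ⟨z, by simp⟩
      (d.continuousOn.mono sb).norm
    have y1 := mem_closedBall_zero_iff.1 hy
    have l : ‖z‖ < ‖ω y‖ := hl.trans_le (hm (by simp))
    obtain ⟨m, m1, hm⟩ := jack d ω0 (mem_ball_zero_iff.1 (sb hy))
      (fun x hx => hm (mem_closedBall_zero_iff.2 (hx.trans y1)))
      (norm_pos_iff.1 ((norm_nonneg _).trans_lt l))
    refine h y (ω y) m (y1.trans_lt l) (mem_ball_zero_iff.1 (b y (sb hy))) m1 (e y (sb hy)).symm ?_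
    have n := isOpen_ball.mem_nhds (sb hy)
    rw [← Filter.EventuallyEq.deriv_eq (f₁ := G ∘ ω) (mem_of_superset n e), deriv_comp y
      (hG.differentiableAt (isOpen_ball.mem_nhds (b y (sb hy)))) (d.differentiableAt n)]
    linear_combination deriv G (ω y) * hm
  have B : MapsTo g (ball 0 1) (G '' ball 0 1) := fun z hz => by
    have z1 := mem_ball_zero_iff.1 hz
    have cp := (isCompact_closedBall (0 : ℂ) ‖z‖).image_of_continuousOn
      (hG.continuousOn.mono (closedBall_subset_ball z1))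
    have sb := image_mono (f := G) (closedBall_subset_ball (x := (0 : ℂ)) z1)
    have cl : ∀ r ≤ ‖z‖, MapsTo g (ball 0 r) (G '' closedBall 0 ‖z‖) → 0 ≤ r →
        MapsTo g (closedBall 0 r) (G '' closedBall 0 ‖z‖) := fun r hr hm r0 => by
      rcases r0.eq_or_lt with rfl | r0
      · intro y hy
        rw [closedBall_zero, mem_singleton_iff] at hy
        exact ⟨0, by simp, by rw [hy, h0]⟩
      · rw [← closure_ball _ r0.ne', ← cp.isClosed.closure_eq]
        exact hm.closure_of_continuousOn (by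
          rw [closure_ball _ r0.ne']; exact hg.continuousOn.mono (closedBall_subset_ball (hr.trans_lt z1)))
    have := IsClosed.Icc_subset_of_forall_exists_gt (a := 0) (b := ‖z‖)
      (s := {r | MapsTo g (ball 0 r) (G '' closedBall 0 ‖z‖)}) (IsClosed.inter ?_ isClosed_Icc)
      (by simp [MapsTo]) ?_ (right_mem_Icc.2 (norm_nonneg z))
    · exact sb (cl _ le_rfl this (norm_nonneg _) (by simp))
    · refine isClosed_of_closure_subset fun r hr y hy => ?_
      obtain ⟨t, h1, h2⟩ := mem_closure_iff.1 hr _ isOpen_Ioi (mem_ball_zero_iff.1 hy)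
      exact h2 (mem_ball_zero_iff.2 h1)
    · rintro r ⟨h1, h2⟩ t ht
      obtain ⟨δ, d0, hδ⟩ := (isCompact_closedBall (0 : ℂ) r).exists_thickening_subset_open
        (hg.continuousOn.isOpen_inter_preimage isOpen_ball op) fun y hy =>
          ⟨closedBall_subset_ball (h2.2.trans z1) hy, sb (cl r h2.2.le h1 h2.1 hy)⟩
      rw [thickening_closedBall d0 h2.1] at hδ
      have m1 := min_le_left (min t ‖z‖) (δ + r)
      have m2 := min_le_right t ‖z‖
      refine ⟨min (min t ‖z‖) (δ + r), fun y hy => ?_, lt_min (lt_min ht h2.2) (by linarith),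
        m1.trans (min_le_left _ _)⟩
      have := (A _ (by linarith) fun x hx => (hδ (ball_subset_ball (min_le_right _ _) hx)).2).2 y hy
      exact ⟨_, mem_closedBall_zero_iff.2 (by linarith [mem_ball_zero_iff.1 hy]), this.2⟩
  exact ⟨ω, (A 1 le_rfl B).1, ω0, (A 1 le_rfl B).2⟩

theorem nw {g : ℂ → ℂ} {S : Set ℂ} (hS : Convex ℝ S)
    (h : ∀ s ∈ S, ∃ d : ℂ, 0 < d.re ∧ HasDerivAt g d s) : InjOn g S := fun a ha b hb e => by
  by_contra hn
  have ne : b - a ≠ 0 := sub_ne_zero.2 (Ne.symm hn)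
  have d : ∀ t ∈ Icc (0 : ℝ) 1, ∃ d : ℝ, 0 < d ∧
      HasDerivAt (fun t : ℝ => (g (a + t * (b - a)) / (b - a)).re) d t := fun t ht => by
    obtain ⟨d, d0, hd⟩ := h _ (hS.add_smul_sub_mem ha hb ht)
    have := (HasDerivAt.comp (t : ℂ) (h₂ := g) hd (((hasDerivAt_id (t : ℂ)).mul_const
      (b - a)).const_add a)).div_const (b - a)
    rw [one_mul, mul_div_cancel_right₀ _ ne] at this
    exact ⟨_, d0, this.real_of_complex⟩
  have := strictMonoOn_of_deriv_pos (convex_Icc 0 1)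
    (fun t ht => (d t ht).choose_spec.2.continuousAt.continuousWithinAt)
    (fun t ht => (d t (interior_subset ht)).choose_spec.2.deriv ▸
      (d t (interior_subset ht)).choose_spec.1) (left_mem_Icc.2 zero_le_one)
    (right_mem_Icc.2 zero_le_one) one_pos
  simp [e] at this

theorem pos_re {G : ℂ → ℂ} (hG : DifferentiableOn ℂ G (ball 0 1)) (G0 : 0 < (G 0).re)
    (hp : ∀ z ∈ ball (0 : ℂ) 1, 0 ≤ (G z).re) : ∀ z ∈ ball (0 : ℂ) 1, 0 < (G z).re :=
  fun z hz => (hp z hz).lt_of_ne' fun e => by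
    have := Complex.norm_eqOn_of_isPreconnected_of_isMaxOn
      (convex_ball (0 : ℂ) 1).isPreconnected isOpen_ball hG.neg.cexp hz (fun y hy => by
        simpa [norm_exp, e] using hp y hy) (mem_ball_self one_pos)
    simp [norm_exp, e, G0.ne'] at this

theorem kin (a ζ : ℂ) : 2 * ((ζ - a) * (1 - ζ) / (ζ * (1 - a))).re * normSq (ζ * (1 - a)) =
    if ζ * (1 - a) = 0 then 0 else
    (‖ζ‖ ^ 2 - ‖a‖ ^ 2) * ‖1 - ζ‖ ^ 2 + (1 - ‖ζ‖ ^ 2) * ‖ζ - a‖ ^ 2 := by
  split_ifs with h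
  · simp [h]
  · rw [mul_assoc, ← re_mul_ofReal, ← mul_conj, ← mul_assoc, div_mul_cancel₀ _ h]
    simp [← normSq_eq_norm_sq, normSq_apply]; ring

theorem ne1 {a : ℂ} (h : ‖a‖ < 1) : 1 - a ≠ 0 := fun e => by rw [← sub_eq_zero.1 e] at h; simp at h

theorem kin_le {a ζ : ℂ} (h : ‖a‖ ≤ ‖ζ‖) (h1 : ‖ζ‖ < 1) :
    0 ≤ ((ζ - a) * (1 - ζ) / (ζ * (1 - a))).re := by
  by_cases e : ζ * (1 - a) = 0
  · simp [e]
  have := kin a ζ
  rw [if_neg e] at this
  have h2 := pow_le_pow_left₀ (norm_nonneg _) h 2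
  have h3 := pow_le_one₀ (n := 2) (norm_nonneg _) h1.le
  have p := normSq_pos.2 e
  by_contra hn
  nlinarith [mul_nonneg (sub_nonneg.2 h2) (sq_nonneg ‖1 - ζ‖),
    mul_nonneg (sub_nonneg.2 h3) (sq_nonneg ‖ζ - a‖)]

theorem kin_lt {a ζ : ℂ} (h : ‖a‖ < ‖ζ‖) (h1 : ‖ζ‖ < 1) :
    0 < ((ζ - a) * (1 - ζ) / (ζ * (1 - a))).re := by
  have e : ζ * (1 - a) ≠ 0 :=
    mul_ne_zero (norm_pos_iff.1 ((norm_nonneg _).trans_lt h)) (ne1 (h.trans h1))
  have := kin a ζ
  rw [if_neg e] at this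
  have h2 := pow_lt_pow_left₀ h (norm_nonneg _) two_ne_zero
  have h3 := pow_le_one₀ (n := 2) (norm_nonneg _) h1.le
  have p := normSq_pos.2 e
  by_contra hn
  nlinarith [mul_pos (sub_pos.2 h2) (pow_pos (norm_pos_iff.2 (ne1 h1)) 2),
    mul_nonneg (sub_nonneg.2 h3) (sq_nonneg ‖ζ - a‖)]

end Pool.Agent.H.MP_1f2de8_an
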