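import Mathlib
import Pool.Agent.H.MP_1f2de8_an.C

set_option autoImplicit false

namespace Pool.Agent.H.MP_1f2de8_an

open Filter Topology Metric Set Complex PowerSeries
open scoped Real ComplexConjugate
open Pool.Agent.H.MP_7a60ac_an Pool.Agent.H.MP_0e1b7e_an

theorem ts_inj {f g : ℂ → ℂ} (hf : DifferentiableOn ℂ f (ball 0 1))
    (hg : DifferentiableOn ℂ g (ball 0 1)) (h : ts f = ts g) : ∀ z ∈ ball (0 : ℂ) 1, f z = g z := by
  intro z hz
  rw [← taylorSeries_eq_on_ball' hz hf, ← taylorSeries_eq_on_ball' hz hg]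
  refine tsum_congr fun k => ?_
  have := congrArg (coeff k) h
  simp only [ts, coeff_mk, co, div_eq_inv_mul] at this
  rw [this]

theorem ts_const (c : ℂ) : ts (fun _ => c) = C c := by
  ext k; simp [ts, co, iteratedDeriv_const, coeff_C]; split_ifs with h <;> simp [h]

theorem ts_lin (a b : ℂ) : ts (fun z => a + b * z) = C a + C b * X := by
  rw [ts_add (by fun_prop) (by fun_prop), ts_cmul (f := fun z => z), ts_id, ts_const]

theorem cay {p : ℂ} (h : 0 < p.re) : p + 1 ≠ 0 ∧ ‖(p - 1) / (p + 1)‖ < 1 := by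
  have h0 : p + 1 ≠ 0 := fun e => by have := congrArg re e; simp at this; linarith
  refine ⟨h0, ?_⟩
  rw [norm_div, div_lt_one (norm_pos_iff.2 h0), ← sq_lt_sq₀ (norm_nonneg _) (norm_nonneg _)]
  simp [← normSq_eq_norm_sq, normSq_apply]; nlinarith

theorem exF {α : ℝ} (h0 : 0 < α) {c : ℕ → ℝ} (c0 : c 0 = 1)
    (hc : ∀ k : ℕ, (1 + α * (k + 1)) * c (k + 1) = (α * (k + 1) - 1) * c k) :
    ∃ W : ℂ → ℂ, DifferentiableOn ℂ W (ball 0 1) ∧
      ts W = (1 - X) * PowerSeries.map ofRealHom (PowerSeries.mk c) ∧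
      ∀ z ∈ ball (0 : ℂ) 1, α * (z * deriv W z) * (1 - z) + (1 + z) * W z = 1 - z := by
  have b : ∀ k, |c k| ≤ 1 := fun k => by
    induction k with
    | zero => simp [c0]
    | succ k ih =>
      have p : 0 < α * (k + 1) := by positivity
      have := congrArg abs (hc k)
      rw [abs_mul, abs_mul, abs_of_pos (by linarith)] at this
      have h : |α * (k + 1) - 1| ≤ 1 + α * (k + 1) := abs_le.2 ⟨by linarith, by linarith⟩
      nlinarith [abs_nonneg (c k), abs_nonneg (α * (k + 1) - 1)]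
  have p := fps (d := fun k => (c k : ℂ)) (g := fun z => ∑' k, c k * z ^ k) fun w hw =>
    (Summable.of_norm_bounded (summable_geometric_of_lt_one (norm_nonneg w) hw) fun k => by
      simpa using mul_le_of_le_one_left (by positivity) (b k)).hasSum
  generalize (fun z : ℂ => ∑' k, (c k : ℂ) * z ^ k) = F at p
  have d : DifferentiableOn ℂ F (ball 0 1) := by
    have := p.differentiableOn
    rwa [← ENNReal.coe_one, Metric.eball_coe] at this
  have aF := p.hasFPowerSeriesAt.analyticAt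
  have t : ts F = PowerSeries.map ofRealHom (PowerSeries.mk c) := by
    ext k
    simpa [ts, co] using congrArg (·.coeff k)
      (aF.hasFPowerSeriesAt.eq_formalMultilinearSeries p.hasFPowerSeriesAt)
  have o := ts_inj (f := fun z => α * (deriv F z * (z * (1 + -1 * z))) + (1 + (1 - α) * z) * F z)
    (g := fun _ => 1) (by have := d.deriv isOpen_ball; fun_prop) (by fun_prop) (by
      have := aF.deriv
      rw [ts_add (by fun_prop) (by fun_prop), ts_cmul, ts_mul this (by fun_prop),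
        ts_mul (by fun_prop) aF, ts_mul (f := fun z => z) (by fun_prop) (by fun_prop), ts_lin, ts_lin,
        ts_id, ts_deriv, ts_const, t]
      generalize hG : PowerSeries.map ofRealHom (PowerSeries.mk c) = G
      have g : ∀ k, coeff k G = c k := fun k => by simp [← hG]
      rw [show C (α : ℂ) * (d⁄dX ℂ G * (X * (C 1 + C (-1) * X))) + (C 1 + C (1 - α : ℂ) * X) * G =
        G + (C (α : ℂ) * d⁄dX ℂ G + C (1 - α : ℂ) * G - C (α : ℂ) * (d⁄dX ℂ G * X)) * X by
          simp only [map_neg, map_one]; ring]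
      have g0 : constantCoeff G = c 0 := by simpa using g 0
      have g1 : constantCoeff (d⁄dX ℂ G) = c 1 := by simpa [g] using coeff_derivative G 0
      ext k
      rcases k with _ | k
      · simp [g0, c0]
      · have := congrArg ((↑) : ℝ → ℂ) (hc k)
        rcases k with _ | k <;>
          simp [coeff_succ_mul_X, coeff_derivative, g, g0, g1, coeff_one, -map_sub, map_sub (coeff _)] at this ⊢ <;>
          linear_combination this)
  refine ⟨fun z => (1 + -1 * z) * F z, by fun_prop, ?_, fun z hz => ?_⟩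
  · rw [ts_mul (by fun_prop) aF, ts_lin, t]; simp [sub_eq_add_neg]
  · have := (((hasDerivAt_id' z).const_mul (-1)).const_add 1).fun_mul
      (d.differentiableAt (isOpen_ball.mem_nhds hz)).hasDerivAt
    rw [this.deriv]
    linear_combination (1 - z) * o z hz

theorem n1 {z : ℂ} (h : ‖z‖ < 1) : 1 + z ≠ 0 := by simpa using ne1 (a := -z) (by simpa using h)

theorem qr {z : ℂ} (h : ‖z‖ < 1) : 0 < ((1 - z) / (1 + z)).re := by
  simpa [sub_eq_add_neg] using (k_re (x := -1) (by simp) (mem_ball_zero_iff.2 h)).2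

variable {α : ℝ} {W : ℂ → ℂ}

theorem exb (h0 : 0 < α) (d : DifferentiableOn ℂ W (ball 0 1)) (W0 : W 0 = 1)
    (o : ∀ z ∈ ball (0 : ℂ) 1, α * (z * deriv W z) * (1 - z) + (1 + z) * W z = 1 - z) :
    ∀ z ∈ ball (0 : ℂ) 1, ∃ b, ‖b‖ ≤ ‖z‖ ∧ (1 - b) / (1 + b) = W z := by
  obtain ⟨b, -, -, hb⟩ := sub (G := fun z => (1 - z) / (1 + z)) (g := W)
    (DifferentiableOn.div (by fun_prop) (by fun_prop) fun z hz => n1 (mem_ball_zero_iff.1 hz))
    (fun x hx y hy e => by
      simp only [div_eq_div_iff (n1 (mem_ball_zero_iff.1 hx)) (n1 (mem_ball_zero_iff.1 hy))] at e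
      linear_combination -e / 2) d (by simp [W0]) fun z ζ m h1 h2 h3 h4 h5 => by
      have e := o z (mem_ball_zero_iff.2 (h1.trans h2))
      have k := kin_lt (a := -z) (ζ := -ζ) (by simpa using h1) (by simpa using h2)
      have ζ0 := norm_pos_iff.1 ((norm_nonneg _).trans_lt h1)
      have := n1 h2
      have := n1 (h1.trans h2)
      rw [h5, h4, (((hasDerivAt_id' ζ).const_sub 1).fun_div ((hasDerivAt_id' ζ).const_add 1)
        (n1 h2)).deriv] at e
      rw [show (-ζ - -z) * (1 - -ζ) / (-ζ * (1 - -z)) = ((-(α * m) : ℝ) : ℂ) * ((1 - z) / (1 + z)) by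
        simp only [sub_neg_eq_add]; push_cast; field_simp at e ⊢; linear_combination -e / 2,
        re_ofReal_mul] at k
      nlinarith [mul_pos (mul_pos h0 (one_pos.trans_le h3)) (qr (h1.trans h2))]
  exact fun z hz => ⟨_, hb z hz⟩

theorem injW (h0 : 0 < α) (d : DifferentiableOn ℂ W (ball 0 1)) (W0 : W 0 = 1)
    (W1 : (deriv W 0).re < 0)
    (o : ∀ z ∈ ball (0 : ℂ) 1, α * (z * deriv W z) * (1 - z) + (1 + z) * W z = 1 - z) :
    InjOn W (ball 0 1) := by
  have a0 : (α : ℂ) ≠ 0 := by exact_mod_cast h0.ne'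
  have θ := pos_re (G := fun z => -deriv W z * ((1 - z ^ 2) / 2))
    (by have := d.deriv isOpen_ball; fun_prop) (by simp; linarith) fun z hz => by
      rcases eq_or_ne z 0 with rfl | z0
      · simp; linarith
      have e := o z hz
      obtain ⟨b, h1, h2⟩ := exb h0 d W0 o z hz
      have := n1 (h1.trans_lt (mem_ball_zero_iff.1 hz))
      have k := kin_le (a := -b) (ζ := -z) (by simpa using h1) (by simpa using hz)
      rw [← h2] at e
      rw [show (-z - -b) * (1 - -z) / (-z * (1 - -b)) = α * (-deriv W z * ((1 - z ^ 2) / 2)) by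
        simp only [sub_neg_eq_add]; field_simp at e ⊢; linear_combination (1 + z) * e,
        re_ofReal_mul] at k
      exact nonneg_of_mul_nonneg_right k h0
  have inj : InjOn (fun s => -W ((exp s - 1) / (exp s + 1))) {s : ℂ | |s.im| < π / 2} := by
    refine nw ?_ fun s hs => ?_
    · simp only [abs_lt]; exact (convex_halfSpace_im_gt _).inter (convex_halfSpace_im_lt _)
    have c := cay (p := exp s) (by
      rw [exp_re]; exact mul_pos (Real.exp_pos _) (Real.cos_pos_of_mem_Ioo (abs_lt.1 hs)))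
    have m := mem_ball_zero_iff.2 c.2
    have d1 := ((hasDerivAt_exp s).sub_const 1).fun_div ((hasDerivAt_exp s).add_const 1) c.1
    have d2 := HasDerivAt.comp s (h₂ := W) (d.differentiableAt (isOpen_ball.mem_nhds m)).hasDerivAt d1
    refine ⟨_, θ _ m, d2.neg.congr_deriv ?_⟩
    have := c.1
    generalize deriv W _ = t
    field_simp; ring
  have lg : ∀ z ∈ ball (0 : ℂ) 1, ∃ s, |s.im| < π / 2 ∧ (exp s - 1) / (exp s + 1) = z := by
    intro z hz
    have k := k_re norm_one hz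
    rw [one_mul] at k
    have := k.1
    refine ⟨log _, log_im _ ▸ abs_arg_lt_pi_div_two_iff.2 (.inl k.2), ?_⟩
    rw [exp_log fun e => by simp [e] at k, div_eq_iff (cay k.2).1]
    field_simp; ring
  intro x hx y hy e
  obtain ⟨s, hs, rfl⟩ := lg x hx
  obtain ⟨t, ht, rfl⟩ := lg y hy
  rw [inj hs ht (congrArg Neg.neg e)]

theorem subW (h0 : 0 < α) (d : DifferentiableOn ℂ W (ball 0 1)) (W0 : W 0 = 1)
    (W1 : (deriv W 0).re < 0)
    (o : ∀ z ∈ ball (0 : ℂ) 1, α * (z * deriv W z) * (1 - z) + (1 + z) * W z = 1 - z)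
    {w p : ℂ → ℂ} (dw : DifferentiableOn ℂ w (ball 0 1)) (dp : DifferentiableOn ℂ p (ball 0 1))
    (w0 : w 0 = 1) (p0 : p 0 = 1) (pr : ∀ z ∈ ball (0 : ℂ) 1, 0 < (p z).re)
    (ow : ∀ z ∈ ball (0 : ℂ) 1, α * (z * deriv w z) + p z * w z = 1) :
    ∃ ω : ℂ → ℂ, DifferentiableOn ℂ ω (ball 0 1) ∧ ω 0 = 0 ∧
      ∀ z ∈ ball (0 : ℂ) 1, ‖ω z‖ ≤ ‖z‖ ∧ W (ω z) = w z := by
  have sa : ∀ z ∈ ball (0 : ℂ) 1, ‖(p z - 1) / (p z + 1)‖ ≤ ‖z‖ := fun z hz =>
    norm_le_norm_of_mapsTo_ball (f := fun z => (p z - 1) / (p z + 1))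
      (DifferentiableOn.div (by fun_prop) (by fun_prop) fun z hz => (cay (pr z hz)).1)
      (fun z hz => mem_closedBall_zero_iff.2 (cay (pr z hz)).2.le) (by simp [p0])
      (mem_ball_zero_iff.1 hz)
  refine sub d (injW h0 d W0 W1 o) dw (w0.trans W0.symm) fun z ζ m h1 h2 h3 h4 h5 => ?_
  · have z1 := mem_ball_zero_iff.2 (h1.trans h2)
    have ζ1 := mem_ball_zero_iff.2 h2
    have ζ0 := norm_pos_iff.1 ((norm_nonneg _).trans_lt h1)
    have k1 := kin_lt ((sa z z1).trans_lt h1) h2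
    obtain ⟨b, hb1, hb2⟩ := exb h0 d W0 o ζ ζ1
    have b1 := hb1.trans_lt h2
    have k2 := kin_le hb1 h2
    have := ne1 h2
    have hk : ∀ c : ℂ, ‖c‖ < 1 → (ζ - c) * (1 - ζ) / (ζ * (1 - c)) =
        ((1 + ζ) / (1 - ζ) - (1 + c) / (1 - c)) * ((1 - ζ) ^ 2 / (2 * ζ)) := fun c hc => by
      have := ne1 hc
      field_simp; ring
    have E1 := ow z z1
    have E2 : α * (ζ * deriv W ζ) + (1 + ζ) / (1 - ζ) * W ζ = 1 := by
      field_simp; linear_combination o ζ ζ1
    have E3 : (1 + b) / (1 - b) * W ζ = 1 := by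
      have := ne1 b1
      have := n1 b1
      rw [← hb2]; field_simp
    have E4 : (1 + (p z - 1) / (p z + 1)) / (1 - (p z - 1) / (p z + 1)) = p z := by
      have := (cay (pr z z1)).1
      rw [div_eq_iff (ne1 (cay (pr z z1)).2)]; field_simp; ring
    rw [h5, h4] at E1
    rw [hk _ (cay (pr z z1)).2, E4, show ((1 + ζ) / (1 - ζ) - p z) = ((1 - m : ℝ) : ℂ) *
      ((1 + ζ) / (1 - ζ) - (1 + b) / (1 - b)) by
        push_cast
        linear_combination (1 + b) / (1 - b) * (m * E2 - E1) - (m * ((1 + ζ) / (1 - ζ)) - p z) * E3,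
      mul_assoc, ← hk _ b1, re_ofReal_mul] at k1
    nlinarith

end Pool.Agent.H.MP_1f2de8_an
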