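import Mathlib
import Pool.Agent.H.MP_1f2de8_an.A
import Pool.Agent.H.MP_1f2de8_an.B
import Pool.Agent.H.MP_1f2de8_an.D

set_option autoImplicit false

namespace Pool.Agent.H.MP_1f2de8_an

open Filter Topology Metric Complex Finset PowerSeries
open scoped Real ComplexConjugate
open Pool.Agent.H.MP_7a60ac_an Pool.Agent.H.MP_0e1b7e_an

theorem xd {R : Type} [CommRing R] (U : R⟦X⟧) (n : ℕ) : coeff n (X * d⁄dX R U) = n * coeff n U := by
  rcases n with _ | n <;> simp [coeff_succ_X_mul, coeff_derivative, mul_comm]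

theorem maj {U Q : ℂ⟦X⟧} {V Φ : ℝ⟦X⟧} (U0 : constantCoeff U = 1) (V0 : constantCoeff V = 1)
    (hU : X * d⁄dX ℂ U = Q * U) (Q0 : constantCoeff Q = 0) (hV : X * d⁄dX ℝ V = Φ * V)
    (Φ0 : constantCoeff Φ = 0) (h1 : ∀ j, 1 ≤ coeff (j + 1) Φ)
    (hQ : ∀ m, ∑ j ∈ range (m + 1), ‖coeff j Q‖ ≤ ∑ j ∈ range (m + 1), coeff j Φ) (n : ℕ) :
    ‖coeff n U‖ ≤ coeff n V := by
  obtain ⟨S, hS⟩ : ∃ S : ℝ⟦X⟧, S = PowerSeries.mk 1 := ⟨_, rfl⟩
  have S1 : S * (1 - X) = 1 := hS ▸ mk_one_mul_one_sub_eq_one ℝ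
  have cS : ∀ (A : ℝ⟦X⟧) m, coeff m (A * S) = ∑ j ∈ range (m + 1), coeff j A := fun A m => by
    simp [coeff_mul, Nat.sum_antidiagonal_eq_sum_range_succ_mk, hS]
  have hD : X * d⁄dX ℝ ((1 - X) * V) = (Φ - X * S) * ((1 - X) * V) := by
    simp only [Derivation.leibniz, map_sub, Derivation.map_one_eq_zero, derivative_X, smul_eq_mul]
    linear_combination (1 - X) * hV + X * V * S1
  have D0 : ∀ k, 0 ≤ coeff k ((1 - X) * V) := fun k => by
    induction k using Nat.strong_induction_on with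
    | _ k ih =>
      rcases k with _ | k
      · simp [V0]
      have := congrArg (coeff (k + 1)) hD
      rw [xd, coeff_mul (φ := Φ - _), Nat.sum_antidiagonal_succ] at this
      refine nonneg_of_mul_nonneg_right (this ▸ add_nonneg (by simp [Φ0]) (sum_nonneg fun p hp =>
        mul_nonneg ?_ (ih _ (by have := mem_antidiagonal.1 hp; omega)))) (by positivity)
      simpa [coeff_succ_X_mul, hS] using h1 p.1
  induction n using Nat.strong_induction_on with
  | _ n ih =>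
    rcases n with _ | n
    · simp [U0, V0]
    have e := congrArg (fun A => ‖coeff (n + 1) A‖) hU
    have e2 := congrArg (coeff (n + 1)) hV
    simp only [xd, norm_mul, norm_natCast] at e e2
    refine le_of_mul_le_mul_left ?_ (Nat.cast_pos.2 n.succ_pos)
    rw [e, e2, coeff_mul]
    refine (norm_sum_le _ _).trans (le_trans (b := coeff (n + 1)
      ((PowerSeries.mk fun j => ‖coeff j Q‖) * V)) ?_ ?_)
    · rw [coeff_mul, Nat.sum_antidiagonal_succ, Nat.sum_antidiagonal_succ]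
      simp only [coeff_mk, norm_mul, coeff_zero_eq_constantCoeff, Q0, norm_zero, zero_mul]
      exact add_le_add_right (sum_le_sum fun p hp => mul_le_mul_of_nonneg_left
        (ih _ (by have := mem_antidiagonal.1 hp; omega)) (norm_nonneg _)) _
    · have t : ∀ A : ℝ⟦X⟧, A * V = A * S * ((1 - X) * V) := fun A => by
        linear_combination -A * V * S1
      rw [t, t Φ, coeff_mul, coeff_mul]
      exact sum_le_sum fun p _ => mul_le_mul_of_nonneg_right (by simpa [cS] using hQ p.1) (D0 _)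

theorem var {ι : Type} [Fintype ι] {w : ι → ℝ} (h1 : ∑ a, w a = 1) {y : ι → ℂ}
    (hy : ∀ a, ‖y a‖ = 1) :
    2 * (1 - ‖∑ a, w a * y a‖ ^ 2) = ∑ a, ∑ b, w a * w b * ‖y a - y b‖ ^ 2 := by
  have e : ∀ a b, w a * w b * ‖y a - y b‖ ^ 2 =
      2 * (w a * w b) - 2 * (w a * y a * conj (w b * y b)).re := fun a b => by
    have ha := hy a
    have hb := hy b
    rw [← sq_eq_sq₀ (norm_nonneg _) zero_le_one, ← normSq_eq_norm_sq] at ha hb
    rw [← normSq_eq_norm_sq, normSq_sub, ha, hb]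
    simp; ring
  simp only [e, sum_sub_distrib, ← mul_sum, ← sum_mul, h1, ← re_sum, ← map_sum, mul_conj,
    normSq_eq_norm_sq, ofReal_re]
  ring

theorem cara {H : ℂ → ℂ} (hH : DifferentiableOn ℂ H (ball 0 1)) (H0 : H 0 = 1)
    (hp : ∀ z ∈ ball (0 : ℂ) 1, 0 ≤ (H z).re) (j : ℕ) : ‖co H (j + 1) / 2‖ ≤ 1 ∧
    1 - ‖co H 1 / 2‖ ^ 2 ≤ 2 * (1 - ‖co H (j + 1) / 2‖ ^ 2) + 2 * (1 - ‖co H (j + 2) / 2‖ ^ 2) := by
  have := TT_ind (n := j + 2) (p := fun c => ‖c ⟨j + 1, by omega⟩‖ ≤ 1 ∧ 1 - ‖c ⟨1, by omega⟩‖ ^ 2 ≤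
    2 * (1 - ‖c ⟨j + 1, by omega⟩‖ ^ 2) + 2 * (1 - ‖c ⟨j + 2, by omega⟩‖ ^ 2))
    (by refine IsClosed.and ?_ ?_ <;> exact isClosed_le (by fun_prop) (by fun_prop))
    (fun ι _ w x hw h1 hx => ⟨(norm_sum_le _ _).trans_eq (by simp [hx, abs_of_nonneg, hw, h1]), ?_⟩)
    _ (TT_mem hH H0 hp)
  · simpa using this
  have hy : ∀ k a, ‖x a ^ k‖ = 1 := fun k a => by simp [hx]
  refine le_of_mul_le_mul_left ?_ two_pos
  rw [mul_add, var h1 (hy _), var h1 (hy _), var h1 (hy _), ← mul_add, ← sum_add_distrib, mul_sum]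
  refine sum_le_sum fun a _ => ?_
  rw [← sum_add_distrib, mul_sum]
  refine sum_le_sum fun b _ => ?_
  rw [← mul_add, mul_left_comm]
  refine mul_le_mul_of_nonneg_left ?_ (mul_nonneg (hw a) (hw b))
  have h := norm_sub_le (x a ^ (j + 2) - x b ^ (j + 2)) (x b * (x a ^ (j + 1) - x b ^ (j + 1)))
  rw [show x a ^ (j + 2) - x b ^ (j + 2) - x b * (x a ^ (j + 1) - x b ^ (j + 1)) =
    x a ^ (j + 1) * (x a - x b) by ring, norm_mul, norm_mul, hy, hx, one_mul, one_mul] at h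
  simp only [pow_one]
  nlinarith [norm_nonneg (x a - x b), sq_nonneg (‖x a ^ (j + 2) - x b ^ (j + 2)‖ -
    ‖x a ^ (j + 1) - x b ^ (j + 1)‖)]

theorem schur {ω : ℂ → ℂ} (d : DifferentiableOn ℂ ω (ball 0 1)) (h0 : ω 0 = 0)
    (hb : ∀ z ∈ ball (0 : ℂ) 1, ‖ω z‖ < 1) {μ χ : ℕ → ℝ} {m : ℕ} (hμ : ∀ i, 0 ≤ μ i)
    (h4 : 4 * ∑ i ∈ range (m + 1), |χ i| ≤ μ 0) (χ0 : χ 0 = 0) (χ1 : χ 1 = 0) :
    P (ts ω) m fun j => ∑ i ∈ range j, μ i + χ j := by
  have b := ball_mem_nhds (0 : ℂ) one_pos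
  have k := fun z hz => k_re norm_one (mem_ball_zero_iff.2 (hb z hz))
  simp only [one_mul] at k
  obtain ⟨H, hH⟩ : ∃ H : ℂ → ℂ, H = fun z => (1 + ω z) / (1 - ω z) := ⟨_, rfl⟩
  have dH : DifferentiableOn ℂ H (ball 0 1) :=
    hH ▸ DifferentiableOn.div (by fun_prop) (by fun_prop) fun z hz => (k z hz).1
  have pH : ∀ z ∈ ball (0 : ℂ) 1, 0 ≤ (H z).re := fun z hz => hH ▸ (k z hz).2.le
  have aω := d.analyticAt b
  have t : ∀ c : ℂ, ts (fun z => 1 + c * ω z) = 1 + C c * ts ω := fun c => by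
    rw [ts_add (by fun_prop) (by fun_prop), ts_const, ts_cmul, map_one]
  have e : ts H * (1 - ts ω) = 1 + ts ω := by
    have := ts_mul (dH.analyticAt b) (g := fun z => 1 + -1 * ω z) (by fun_prop)
    rw [ts_congr (g := fun z => 1 + 1 * ω z) (mem_of_superset b fun z hz => by
      have := (k z hz).1
      simp only [hH, Set.mem_ofPred_eq]; field_simp; ring), t, t] at this
    simpa [sub_eq_add_neg] using this.symm
  have c := cara dH (by simp [hH, h0]) pH
  have h2 : ∀ j, coeff (j + 1) (C (1 / 2 : ℂ) * (ts H - 1)) = co H (j + 1) / 2 := fun j => by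
    simp [ts, coeff_one]; ring
  have h3 : coeff 0 (C (1 / 2 : ℂ) * (ts H - 1)) = 0 := by simp [ts, co, hH, h0]
  refine l1 (h := C (1 / 2 : ℂ) * (ts H - 1)) (by simp [ts, co, h0]) (fun k g => ?_) ?_ ?_ ?_ hμ h4 χ0 χ1
  · have := tp_one (fun r r0 r1 => tp_r dH pH r0 r1 k) fun i => coeff i ((1 - ts ω) * g)
    rw [re_sum] at this
    rw [n2, n2, ← sub_nonneg, ← sum_sub_distrib]
    refine this.trans_eq (sum_congr rfl fun j _ => ?_)
    have e2 := congrArg (fun A => coeff j (A * g)) e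
    simp only [mul_assoc] at e2
    rw [mul_comm, coeff_mul, Nat.sum_antidiagonal_eq_sum_range_succ_mk] at e2
    rw [← sum_mul, sum_congr rfl fun i _ => mul_comm _ _]
    simp only [ts, coeff_mk] at e2 ⊢
    rw [e2]
    simp [add_mul, sub_mul, ← normSq_eq_norm_sq, normSq_apply]; ring
  · have : (C (1 / 2 : ℂ)) * 2 = 1 := by
      rw [← map_ofNat (C (R := ℂ)) 2, ← map_mul]; simp
    linear_combination C (1 / 2 : ℂ) * e + ts ω * this
  · rintro (_ | j)
    · rw [h3]; simp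
    · exact h2 j ▸ (c j).1
  · rintro (_ | j)
    · have := pow_le_one₀ (n := 2) (norm_nonneg _) (c 0).1
      rw [h3, h2, norm_zero]; linarith
    · rw [h2, h2, h2]; exact (c j).2

theorem ts_comp {φ ω : ℂ → ℂ} (hφ : AnalyticAt ℂ φ 0) (hω : AnalyticAt ℂ ω 0) (h0 : ω 0 = 0)
    (n : ℕ) : X ^ n ∣ ts (fun z => φ (ω z)) - ∑ j ∈ range n, C (co φ j) * ts ω ^ j := by
  obtain ⟨F, hF, e⟩ := hφ.exists_eq_sum_add_pow_mul n
  have p : ∀ j, ts (fun z => ω z ^ j) = ts ω ^ j := fun j => by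
    induction j with
    | zero => simpa using ts_const 1
    | succ j ih => simp only [pow_succ]; rw [ts_mul (by fun_prop) hω, ih]
  have s : ∀ N, ts (fun z => ∑ j ∈ range N, co φ j * ω z ^ j) =
      ∑ j ∈ range N, C (co φ j) * ts ω ^ j := fun N => by
    induction N with
    | zero => simpa using ts_const 0
    | succ N ih =>
      simp only [sum_range_succ]
      rw [ts_add (by fun_prop) (by fun_prop), ih, ts_cmul, p]
  have aF : AnalyticAt ℂ (fun z => F (ω z)) 0 := hF.fun_comp_of_eq hω h0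
  rw [show (fun z => φ (ω z)) = fun z => ∑ j ∈ range n, co φ j * ω z ^ j + ω z ^ n * F (ω z) from
    funext fun z => by rw [e]; simp only [co, smul_eq_mul]; congr 2; ext; ring,
    ts_add (by fun_prop) ((hω.fun_pow n).fun_mul aF), s, add_sub_cancel_left, ts_mul (by fun_prop) aF, p]
  exact (pow_dvd_pow_of_dvd (X_dvd_iff.2 (by simp [ts, co, h0])) n).mul_right _

end Pool.Agent.H.MP_1f2de8_an
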