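import Mathlib
import Pool.Agent.H.MP_1f2de8_an.E

set_option autoImplicit false

namespace Pool.Agent.H.MP_1f2de8_an

open Filter Topology Metric Complex Finset PowerSeries
open scoped Real ComplexConjugate
open Pool.Agent.H.MP_7a60ac_an Pool.Agent.H.MP_0e1b7e_an

variable {α : ℝ}

theorem key (h0 : 0 < α) (h1 : α < 1) : ∃ (W : ℂ → ℂ) (Φ : ℝ⟦X⟧),
    DifferentiableOn ℂ W (ball 0 1) ∧ (∀ z ∈ ball (0 : ℂ) 1, 0 < (W z).re ∧
      α * (z * deriv W z) * (1 - z) + (1 + z) * W z = 1 - z) ∧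
    ts (fun z => (W z)⁻¹) = PowerSeries.map ofRealHom Φ ∧
    ∀ V : ℝ⟦X⟧, constantCoeff V = 1 → X * d⁄dX ℝ V = (Φ - 1) * V → ∀ u w p : ℂ → ℂ,
      DifferentiableOn ℂ u (ball 0 1) → DifferentiableOn ℂ w (ball 0 1) →
      DifferentiableOn ℂ p (ball 0 1) → u 0 = 1 → w 0 = 1 → p 0 = 1 →
      (∀ z ∈ ball (0 : ℂ) 1, 0 < (p z).re) → (∀ z ∈ ball (0 : ℂ) 1,
        α * (z * deriv w z) + p z * w z = 1) →
      (∀ z ∈ ball (0 : ℂ) 1, z * deriv u z = ((w z)⁻¹ + -1) * u z) → ∀ n, ‖co u n‖ ≤ coeff n V := by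
  have b := ball_mem_nhds (0 : ℂ) one_pos
  obtain ⟨c, hc⟩ : ∃ c : ℕ → ℝ, c = fun k => ∏ i ∈ range k, ((i + 1 - α⁻¹) / (α⁻¹ + (i + 1))) :=
    ⟨_, rfl⟩
  have c0 : c 0 = 1 := by simp [hc]
  have c1 : ∀ k : ℕ, c (k + 1) = (k + 1 - α⁻¹) / (α⁻¹ + (k + 1)) * c k := fun k => by
    simp only [hc, prod_range_succ, mul_comm]
  obtain ⟨W, d, t, o⟩ := exF h0 c0 fun k => by rw [c1]; field_simp
  have W0 : W 0 = 1 := by simpa using o 0 (mem_ball_self one_pos)
  have W1 : (deriv W 0).re < 0 := by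
    have := congrArg (coeff 1) t
    simp [ts, co, sub_mul, c0] at this
    rw [this, c1, c0, sub_re, ofReal_re, one_re, mul_one, sub_neg, div_lt_one (by positivity)]
    linarith [inv_pos.2 h0]
  have r : ∀ z ∈ ball (0 : ℂ) 1, 0 < (W z).re := fun z hz => by
    obtain ⟨b, h1, h2⟩ := exb h0 d W0 o z hz
    exact h2 ▸ qr (h1.trans_lt (mem_ball_zero_iff.1 hz))
  have n : ∀ z ∈ ball (0 : ℂ) 1, W z ≠ 0 := fun z hz e => by simpa [e] using r z hz
  have hΦ := PowerSeries.inv_mul_cancel ((1 - X) * PowerSeries.mk c) (by simp [c0])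
  generalize ((1 - X) * PowerSeries.mk c)⁻¹ = Φ at hΦ
  have aφ := (d.fun_inv n).analyticAt b
  have tφ : ts (fun z => (W z)⁻¹) = PowerSeries.map ofRealHom Φ := by
    have e := ts_mul aφ (d.analyticAt b)
    rw [ts_congr (g := fun _ => 1) (mem_of_superset b fun z hz => inv_mul_cancel₀ (n z hz)),
      ts_const, t, map_one] at e
    have e2 := congrArg (PowerSeries.map ofRealHom) hΦ
    simp only [map_mul, map_sub, map_one, map_X] at e2
    linear_combination PowerSeries.map ofRealHom Φ * e.symm - (ts fun z => (W z)⁻¹) * e2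
  refine ⟨W, Φ, d, fun z hz => ⟨r z hz, o z hz⟩, tφ, fun V V0 hV u w p du dw dp u0 w0 p0 pr ow ou k => ?_⟩
  obtain ⟨ω, dω, ω0, hω⟩ := subW h0 d W0 W1 o dw dp w0 p0 pr ow
  obtain ⟨μ, χ, m0, m1, m2, m3, m4⟩ := dec ((one_lt_inv₀ h0).2 h1) c0 c1 hΦ
  have Φ0 : constantCoeff Φ = 1 := by simpa [c0] using congrArg constantCoeff hΦ
  have aw : AnalyticAt ℂ (fun z => (w z)⁻¹) 0 := (dw.analyticAt b).inv (by simp [w0])
  have au := du.analyticAt b
  have := maj (U := ts u) (Q := ts (fun z => (w z)⁻¹) + C (-1)) (by simp [ts, co, u0]) V0 (by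
    rw [← ts_deriv, ← ts_id, ← ts_mul (by fun_prop) au.deriv, ← ts_const, ← ts_add aw (by fun_prop),
      ← ts_mul (by fun_prop) au]
    exact ts_congr (mem_of_superset b ou)) (by simp [ts, co, w0]) hV (by simp [Φ0])
    (fun j => by simpa [coeff_one] using (m4 j).2) (fun m => ?_) k
  · simpa [ts] using this
  have v : ∀ j, ∑ i ∈ range j, μ i + χ j = coeff j (Φ - 1) := by
    rintro (_ | j)
    · simp [m2, Φ0]
    · simp [coeff_one, (m4 j).1]
  have s := schur dω ω0 (fun z hz => (hω z hz).1.trans_lt (mem_ball_zero_iff.1 hz)) m0 (m1 m) m2 m3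
  simp only [P, v] at s
  refine le_trans (le_of_eq (sum_congr rfl fun j hj => congrArg _ (co_eq (n := m) ?_
    (Nat.lt_succ_iff.1 (mem_range.1 hj))))) s
  have e := ts_comp aφ (dω.analyticAt b) ω0 (m + 1)
  rw [ts_congr (g := fun z => (w z)⁻¹) (mem_of_superset b fun z hz => congrArg Inv.inv (hω z hz).2)] at e
  have e2 : ∀ j, co (fun z => (W z)⁻¹) j = coeff j Φ := fun j => by
    simpa [ts] using congrArg (coeff j) tφ
  refine e.trans (dvd_of_eq ?_)
  simp [T, sum_range_succ', e2, Φ0, coeff_one]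
  ring

end Pool.Agent.H.MP_1f2de8_an
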