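import Mathlib
import Pool.Agent.H.MP_1f2de8_an.F

set_option autoImplicit false

namespace Pool.Agent.H.MP_1f2de8_an

open Filter Topology Metric Complex Finset PowerSeries
open scoped Real ComplexConjugate
open Pool.Agent.H.MP_7a60ac_an Pool.Agent.H.MP_0e1b7e_an

variable {α : ℝ} {W : ℂ → ℂ}

theorem extr (h0 : 0 < α) (h1 : α < 1) (d : DifferentiableOn ℂ W (ball 0 1))
    (hW : ∀ z ∈ ball (0 : ℂ) 1, 0 < (W z).re ∧ α * (z * deriv W z) * (1 - z) + (1 + z) * W z = 1 - z) :
    ∃ u : ℂ → ℂ, DifferentiableOn ℂ u (ball 0 1) ∧ u 0 = 1 ∧ Set.InjOn (fun z => z * u z) (ball 0 1) ∧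
      (∀ z ∈ ball (0 : ℂ) 1, z * deriv u z = ((W z)⁻¹ + -1) * u z) ∧
      (∀ z ∈ ball (0 : ℂ) 1, z ≠ 0 → α * (1 + z * deriv (deriv fun z => z * u z) z /
        deriv (fun z => z * u z) z) + (1 - α) * (z * deriv (fun z => z * u z) z / (z * u z)) =
          (1 + z) / (1 - z)) ∧ ∃ P : ℂ⟦X⟧, (∀ k, coeff k P =
        ((∏ i ∈ range k, (2 / α + i)) / k.factorial / (1 + α * k) : ℝ)) ∧ ∀ n, IsPow n P α (ts u) := by
  have b := ball_mem_nhds (0 : ℂ) one_pos
  have a0 : (α : ℂ) ≠ 0 := by exact_mod_cast h0.ne'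
  have W0 : W 0 = 1 := by simpa using (hW 0 (mem_ball_self one_pos)).2
  have n : ∀ z ∈ ball (0 : ℂ) 1, W z ≠ 0 := fun z hz e => by simpa [e] using (hW z hz).1
  have n' : ∀ z ∈ ball (0 : ℂ) 1, 1 - z ≠ 0 := fun z hz => ne1 (mem_ball_zero_iff.1 hz)
  obtain ⟨E, hE⟩ : ∃ E : ℂ → ℂ → ℂ → ℂ, E = fun a b z => exp (a * log (W z) + b * log (1 - z)) :=
    ⟨_, rfl⟩
  have dl : ∀ z ∈ ball (0 : ℂ) 1, HasDerivAt (fun z => log (W z)) (deriv W z / W z) z ∧
      HasDerivAt (fun z => log (1 - z)) (-1 / (1 - z)) z := fun z hz =>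
    ⟨(d.differentiableAt (isOpen_ball.mem_nhds hz)).hasDerivAt.clog (.inl (hW z hz).1),
      ((hasDerivAt_id' z).const_sub 1).clog (by
        simpa [sub_eq_add_neg] using mem_slitPlane_of_norm_lt_one (z := -z) (by simpa using hz))⟩
  have dE : ∀ a b, ∀ z ∈ ball (0 : ℂ) 1,
      HasDerivAt (E a b) (E a b z * (a * (deriv W z / W z) + b * (-1 / (1 - z)))) z := fun a b z hz =>
    hE ▸ (((dl z hz).1.const_mul a).fun_add ((dl z hz).2.const_mul b)).cexp
  have DE : ∀ a b, DifferentiableOn ℂ (E a b) (ball 0 1) := fun a b z hz =>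
    (dE a b z hz).differentiableAt.differentiableWithinAt
  have E0 : ∀ a b, E a b 0 = 1 := fun a b => by simp [hE, W0]
  have E1 : ∀ a b z, E a b z ≠ 0 := fun a b z => hE ▸ exp_ne_zero _
  have E2 : ∀ a b, ∀ z ∈ ball (0 : ℂ) 1, E (a + 1) b z = W z * E a b z := fun a b z hz => by
    simp only [hE]; nth_rw 2 [← exp_log (n z hz)]; rw [← exp_add]; congr 1; ring
  have E3 : ∀ a b, ∀ z ∈ ball (0 : ℂ) 1, E a (b + 1) z = (1 - z) * E a b z := fun a b z hz => by
    simp only [hE]; nth_rw 2 [← exp_log (n' z hz)]; rw [← exp_add]; congr 1; ring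
  have ou : ∀ z ∈ ball (0 : ℂ) 1, z * deriv (E α (-2)) z = ((W z)⁻¹ + -1) * E α (-2) z :=
    fun z hz => by
      have := n z hz
      have := n' z hz
      rw [(dE _ _ z hz).deriv]; field_simp; linear_combination E α (-2) z * (hW z hz).2
  have df : ∀ z ∈ ball (0 : ℂ) 1, HasDerivAt (fun z => z * E α (-2) z) (E (α - 1) (-2) z) z :=
    fun z hz => ((hasDerivAt_id' z).fun_mul (dE _ _ z hz).differentiableAt.hasDerivAt).congr_deriv (by
      have := n z hz
      have e := E2 (α - 1) (-2) z hz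
      rw [sub_add_cancel] at e
      rw [ou z hz, e]; field_simp; ring)
  refine ⟨E α (-2), DE _ _, E0 _ _, ?_, ou, fun z hz z0 => ?_, ts (E 1 (-(2 / α))), ?_, fun k => ?_⟩
  · have inj : Set.InjOn (fun s => s / (1 + s) * E α (-2) (s / (1 + s))) {s : ℂ | -1 / 2 < s.re} := by
      refine nw (convex_halfSpace_re_gt _) fun s hs => ?_
      have c := cay (p := 1 + 2 * s) (by simp at hs ⊢; linarith)
      have s1 : 1 + s ≠ 0 := fun e => c.1 (by linear_combination 2 * e)
      rw [show (1 + 2 * s - 1) / (1 + 2 * s + 1) = s / (1 + s) by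
        rw [div_eq_div_iff c.1 s1]; ring] at c
      have m := mem_ball_zero_iff.2 c.2
      refine ⟨E (α - 1) 0 (s / (1 + s)), ?_, (HasDerivAt.comp s (h₂ := fun z => z * E α (-2) z) (df _ m)
        ((hasDerivAt_id' s).fun_div ((hasDerivAt_id' s).const_add 1) s1)).congr_deriv ?_⟩
      · have := abs_arg_lt_pi_div_two_iff.2 (.inl (hW _ m).1)
        simp only [hE, zero_mul, add_zero, exp_re]
        refine mul_pos (Real.exp_pos _) (Real.cos_pos_of_mem_Ioo (abs_lt.1 ?_))
        rw [show (α : ℂ) - 1 = ((α - 1 : ℝ) : ℂ) by simp, im_ofReal_mul, log_im, abs_mul,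
          abs_of_neg (by linarith)]
        nlinarith [abs_nonneg (W (s / (1 + s))).arg]
      · rw [show (0 : ℂ) = -2 + 1 + 1 by ring, E3 _ _ _ m, E3 _ _ _ m]; field_simp; ring
    have lg : ∀ z ∈ ball (0 : ℂ) 1, ∃ s : ℂ, -1 / 2 < s.re ∧ s / (1 + s) = z := fun z hz => by
      have k := k_re norm_one hz
      have := n' z hz
      rw [one_mul, show (1 + z) / (1 - z) = 1 + 2 * (z / (1 - z)) by field_simp; ring] at k
      refine ⟨z / (1 - z), by have := k.2; simp at this; linarith, ?_⟩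
      rw [show 1 + z / (1 - z) = 1 / (1 - z) by field_simp; ring]; field_simp
    intro x hx y hy e
    obtain ⟨s, hs, rfl⟩ := lg x hx
    obtain ⟨t, ht, rfl⟩ := lg y hy
    rw [inj hs ht e]
  · have e := E2 (α - 1) (-2) z hz
    have := n z hz
    have := n' z hz
    have := E1 (α - 1) (-2) z
    rw [sub_add_cancel] at e
    rw [(Filter.EventuallyEq.deriv_eq (mem_of_superset (isOpen_ball.mem_nhds hz)
      fun y hy => (df y hy).deriv)), (df z hz).deriv, (dE _ _ z hz).deriv, e]
    field_simp; linear_combination (α - 1) * (hW z hz).2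
  · have aE := fun a c => (DE a c).analyticAt b
    have t1 : ts (E 1 (-(2 / α))) + C (α : ℂ) * (X * d⁄dX ℂ (ts (E 1 (-(2 / α))))) =
        ts (E 0 (-(2 / α))) := by
      have := (aE 1 (-(2 / α))).deriv
      rw [← ts_deriv, ← ts_id, ← ts_mul (by fun_prop) this, ← ts_cmul, ← ts_add (aE _ _) (by fun_prop)]
      refine ts_congr (mem_of_superset b fun z hz => ?_)
      have e := E2 0 (-(2 / α)) z hz
      have := n z hz
      have := n' z hz
      rw [zero_add] at e
      simp only [Set.mem_ofPred_eq, (dE _ _ z hz).deriv, e]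
      field_simp; linear_combination E 0 (-(2 / α)) z * (hW z hz).2
    have t2 : (C 1 + C (-1) * X) * d⁄dX ℂ (ts (E 0 (-(2 / α)))) =
        C (2 / α : ℂ) * ts (E 0 (-(2 / α))) := by
      rw [← ts_deriv, ← ts_lin, ← ts_mul (by fun_prop) (aE _ _).deriv, ← ts_cmul]
      refine ts_congr (mem_of_superset b fun z hz => ?_)
      have := n' z hz
      simp only [Set.mem_ofPred_eq, (dE _ _ z hz).deriv]
      field_simp; ring
    have t3 : ∀ k, coeff k (ts (E 0 (-(2 / α)))) = (∏ i ∈ range k, (2 / α + i : ℂ)) / k.factorial := by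
      intro k
      induction k with
      | zero => simp [ts, co, E0]
      | succ k ih =>
        have e := congrArg (coeff k) t2
        have h1 : (k.factorial : ℂ) ≠ 0 := by exact_mod_cast k.factorial_ne_zero
        have h2 : (k : ℂ) + 1 ≠ 0 := by exact_mod_cast k.succ_ne_zero
        rw [add_mul, mul_assoc, map_add, coeff_C_mul, coeff_C_mul, coeff_C_mul, xd, coeff_derivative,
          ih] at e
        rw [prod_range_succ, Nat.factorial_succ]
        push_cast
        field_simp at e ⊢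
        linear_combination e
    intro k
    have e := congrArg (coeff k) t1
    have h2 : (1 : ℂ) + α * k ≠ 0 := by exact_mod_cast (by positivity : (1 : ℝ) + α * k ≠ 0)
    rw [map_add, coeff_C_mul, xd, t3] at e
    push_cast
    rw [← e]; field_simp
  · have := isPow_exp (L := fun z => α * log (W z) + -2 * log (1 - z)) (DifferentiableOn.analyticAt
      (fun z hz => (((dl z hz).1.const_mul _).fun_add
        ((dl z hz).2.const_mul _)).differentiableAt.differentiableWithinAt) b) (by simp [W0]) α⁻¹ α k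
    rw [mul_inv_cancel₀ a0] at this
    simp only [one_mul] at this
    rw [show E 1 (-(2 / α)) = fun z => exp ((α : ℂ)⁻¹ * (α * log (W z) + -2 * log (1 - z))) by
      ext z; simp only [hE]; congr 1; field_simp, hE]
    exact this

end Pool.Agent.H.MP_1f2de8_an
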